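import Pool.Agent.Q276.NV.D1

/-! The variance of the number of ordinates in a window, and the covariances. -/

set_option autoImplicit false

open Filter Topology Set MeasureTheory

namespace Pool.Agent.Q276.NV

open SG (ord NZ zmult)
open Pool.Agent.Y744 (Zt mz mem_Zt mz_nonneg Xf Xf_pos sum_Zt short_count sum_Zb)
open H177.Lat (yy)
open Q241.OP (low_zero)
open H370 (NN)

/-- the scaled length -/
noncomputable def hs (T a : ℝ) : ℝ := 2 * Real.pi * a / Real.log T

lemma NZ_NN (T : ℝ) : (NZ T : ℝ) = (NN riemannZeta 0 T : ℝ) := by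
  rw [← sum_Zt, NZ_Zt]
  push_cast
  rfl

/-- `N(T) ~ X(T)` -/
lemma NZ_lim : Tendsto (fun T : ℝ => (NZ T : ℝ) / Xf T) atTop (𝓝 1) := by
  rw [Metric.tendsto_atTop]
  intro ε hε
  obtain ⟨T0, hT0, h⟩ := Pool.Agent.W54.TCF.NT_asymp' (ε / 2) (by positivity)
  refine ⟨T0, fun T hT => ?_⟩
  obtain ⟨h1, h2⟩ := h T hT
  have hX : 0 < Xf T := Xf_pos (by linarith)
  have e : T / (2 * Real.pi) * Real.log T = Xf T := by
    unfold Xf
    ring
  rw [e, ← NZ_NN] at h1 h2
  rw [Real.dist_eq, abs_lt]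
  have h3 : 1 - ε / 2 ≤ (NZ T : ℝ) / Xf T := by rwa [le_div_iff₀ hX]
  have h4 : (NZ T : ℝ) / Xf T ≤ 1 + ε / 2 := by rwa [div_le_iff₀ hX]
  constructor <;> linarith

lemma logpow_lim (c : ℝ) (k : ℕ) : Tendsto (fun T : ℝ => c * (Real.log T ^ k / T)) atTop (𝓝 0) := by
  have h1 := (Real.isLittleO_pow_log_id_atTop (n := k)).tendsto_div_nhds_zero
  have h2 := h1.const_mul c
  rw [mul_zero] at h2
  exact h2

/-- the edges are negligible -/
lemma edge_lim {a b : ℝ} (hab : a ≤ b) (p : ℕ) (hp : p ≠ 0)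
    (hW : ∀ T : ℝ, 1 < T → Integrable (fun t => WW T (hs T a) (hs T b) t ^ p)) :
    Tendsto (fun T : ℝ => 1 / T * (∫ t in (0 : ℝ)..T, DD (hs T a) (hs T b) t ^ p) -
      1 / T * ∫ t, WW T (hs T a) (hs T b) t ^ p) atTop (𝓝 0) := by
  obtain ⟨m, hm0, hm⟩ := low_zero
  obtain ⟨C, T0, hC, hT0, hend⟩ := end_count
  set A : ℝ := |a| + |b| with hA
  have hA0 : 0 ≤ A := by positivity
  have hpi := Real.pi_pos
  have h1 : Tendsto (fun T : ℝ => 2 * Real.pi * A / Real.log T) atTop (𝓝 0) :=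
    Tendsto.div_atTop tendsto_const_nhds Real.tendsto_log_atTop
  have h2 := logpow_lim (2 * (2 * Real.pi * A) * C ^ p) (2 * p)
  refine squeeze_zero_norm' ?_ h2
  filter_upwards [(tendsto_order.1 h1).2 m hm0, (tendsto_order.1 h1).2 1 one_pos,
    eventually_ge_atTop T0] with T g1 g2 hT
  have hT1 : 1 < T := by linarith
  have hL1 : 1 ≤ Real.log T := by
    rw [Real.le_log_iff_exp_le (by linarith)]
    linarith [Real.exp_one_lt_d9]
  have hlog : 0 < Real.log T := by linarith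
  have hle : ∀ x : ℝ, |x| ≤ A → |hs T x| ≤ 2 * Real.pi * A / Real.log T := by
    intro x hx
    unfold hs
    rw [abs_div, abs_mul, abs_of_pos (by positivity : 0 < 2 * Real.pi), abs_of_pos hlog]
    gcongr
  have hmon : hs T a ≤ hs T b := by
    unfold hs
    gcongr
  have h3 := edge_int hm g1 g2.le (hle a (by rw [hA]; linarith [abs_nonneg b]))
    (hle b (by rw [hA]; linarith [abs_nonneg a])) hmon (by linarith : 2 ≤ T) p hp (hW T hT1)
  have h4 := hend T hT
  have hM0 : 0 ≤ (NZ (T + 1) : ℝ) - NZ (T - 2) := by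
    have := NZ_cmono (show T - 2 ≤ T + 1 by linarith)
    simp only at this
    linarith
  rw [← mul_sub, Real.norm_eq_abs, abs_mul, abs_of_pos (by positivity : 0 < 1 / T)]
  calc 1 / T * |(∫ t in (0 : ℝ)..T, DD (hs T a) (hs T b) t ^ p) -
        ∫ t, WW T (hs T a) (hs T b) t ^ p| ≤
      1 / T * (2 * (2 * Real.pi * A / Real.log T) * (C * Real.log T ^ 2) ^ p) := by
        apply mul_le_mul_of_nonneg_left _ (by positivity)
        refine h3.trans ?_
        gcongr
    _ ≤ 1 / T * (2 * (2 * Real.pi * A) * (C * Real.log T ^ 2) ^ p) := by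
        apply mul_le_mul_of_nonneg_left _ (by positivity)
        apply mul_le_mul_of_nonneg_right _ (by positivity)
        apply mul_le_mul_of_nonneg_left _ (by norm_num)
        exact div_le_self (by positivity) hL1
    _ = 2 * (2 * Real.pi * A) * C ^ p * (Real.log T ^ (2 * p) / T) := by
        rw [mul_pow, ← pow_mul]
        ring

lemma WW_one (T u v : ℝ) : (fun t => WW T u v t ^ 1) = WW T u v := by
  funext t
  rw [pow_one]

/-- the mean of the window counts -/
theorem mean_lim {a b : ℝ} (hab : a ≤ b) :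
    Tendsto (fun T : ℝ => 1 / T * ∫ t in (0 : ℝ)..T, DD (hs T a) (hs T b) t) atTop
      (𝓝 (b - a)) := by
  have hmon : ∀ T : ℝ, 1 < T → hs T a ≤ hs T b := by
    intro T hT
    have hlog : 0 < Real.log T := Real.log_pos hT
    have := Real.pi_pos
    unfold hs
    gcongr
  have h1 := edge_lim hab 1 one_ne_zero (fun T hT => by
    rw [WW_one]
    exact (int_WW (hmon T hT) T).1)
  have h2 : Tendsto (fun T : ℝ => (b - a) * ((NZ T : ℝ) / Xf T)) atTop (𝓝 ((b - a) * 1)) :=
    NZ_lim.const_mul _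
  have h3 := h1.add h2
  rw [zero_add, mul_one] at h3
  refine h3.congr' ?_
  filter_upwards [eventually_gt_atTop (1 : ℝ)] with T hT
  have hlog : 0 < Real.log T := Real.log_pos hT
  have hpi := Real.pi_pos
  rw [WW_one, (int_WW (hmon T hT) T).2]
  simp only [pow_one]
  have hT0 : T ≠ 0 := by linarith
  unfold Xf hs
  field_simp
  ring

/-- the mean square of the window counts -/
theorem sq_lim {a b : ℝ} (hab : a ≤ b) :
    Tendsto (fun T : ℝ => 1 / T * (∫ t in (0 : ℝ)..T, DD (hs T a) (hs T b) t ^ 2) -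
      TT T (b - a) / Xf T) atTop (𝓝 0) := by
  have hmon : ∀ T : ℝ, 1 < T → hs T a ≤ hs T b := by
    intro T hT
    have hlog : 0 < Real.log T := Real.log_pos hT
    have := Real.pi_pos
    unfold hs
    gcongr
  have h1 := edge_lim hab 2 two_ne_zero (fun T hT => (int_WW2 (hmon T hT) T).1)
  refine h1.congr' ?_
  filter_upwards [eventually_gt_atTop (1 : ℝ)] with T hT
  have hlog : 0 < Real.log T := Real.log_pos hT
  have hpi := Real.pi_pos
  rw [(int_WW2 (hmon T hT) T).2]
  congr 1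
  have hT0 : 0 < T := by linarith
  have e : ∀ n m : ℕ, max 0 (hs T b - hs T a - |ord n - ord m|) =
      2 * Real.pi / Real.log T * max 0 ((b - a) - |yy T n - yy T m|) := by
    intro n m
    rw [mul_max_of_nonneg _ _ (by positivity), mul_zero]
    congr 1
    have e1 : yy T n - yy T m = (ord n - ord m) * (Real.log T / (2 * Real.pi)) := by
      unfold yy
      ring
    rw [e1, abs_mul, abs_of_pos (by positivity : 0 < Real.log T / (2 * Real.pi))]
    unfold hs
    field_simp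
  simp_rw [e, ← Finset.mul_sum]
  unfold TT Xf
  field_simp

/-- **the variance of the window counts** -/
theorem var_lim : ∃ C : ℝ, 0 ≤ C ∧ ∀ a b : ℝ, 1 ≤ b - a → ∀ᶠ T : ℝ in atTop,
    |1 / T * (∫ t in (0 : ℝ)..T, (DD (hs T a) (hs T b) t - (b - a)) ^ 2) -
      1 / Real.pi ^ 2 * Real.log (b - a)| ≤ C := by
  obtain ⟨C, hC, h⟩ := TT_lim
  refine ⟨C + 1, by positivity, fun a b hab => ?_⟩
  set L : ℝ := b - a with hL
  have hL0 : 0 < L := by linarith
  have h1 := mean_lim (a := a) (b := b) (by linarith)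
  have h2 := sq_lim (a := a) (b := b) (by linarith)
  rw [← hL] at h1 h2
  have h3 := (h1.sub_const L).const_mul (2 * L)
  rw [sub_self, mul_zero] at h3
  have h4 := h2.sub h3
  rw [sub_zero] at h4
  have h5 := (Metric.tendsto_nhds.1 h4) 1 one_pos
  filter_upwards [h L hab, h5, eventually_gt_atTop (1 : ℝ)] with T g1 g2 hT
  rw [Real.dist_eq, sub_zero] at g2
  have hi1 : IntervalIntegrable (fun t => DD (hs T a) (hs T b) t) volume 0 T := by
    have := DD_ii (hs T a) (hs T b) 1 0 T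
    simpa using this
  have hi2 := DD_ii (hs T a) (hs T b) 2 0 T
  have e1 : ∫ t in (0 : ℝ)..T, (DD (hs T a) (hs T b) t - L) ^ 2 =
      (∫ t in (0 : ℝ)..T, DD (hs T a) (hs T b) t ^ 2) -
      2 * L * (∫ t in (0 : ℝ)..T, DD (hs T a) (hs T b) t) + L ^ 2 * T := by
    have e2 : ∀ t ∈ Set.uIcc (0 : ℝ) T, (DD (hs T a) (hs T b) t - L) ^ 2 =
        DD (hs T a) (hs T b) t ^ 2 - 2 * L * DD (hs T a) (hs T b) t + L ^ 2 := by
      intro t _
      ring
    rw [intervalIntegral.integral_congr e2, intervalIntegral.integral_add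
      (hi2.sub (hi1.const_mul _)) (by simp), intervalIntegral.integral_sub hi2 (hi1.const_mul _),
      intervalIntegral.integral_const_mul, intervalIntegral.integral_const, smul_eq_mul, sub_zero]
    ring
  rw [e1]
  set I2 := ∫ t in (0 : ℝ)..T, DD (hs T a) (hs T b) t ^ 2 with hI2
  set I1 := ∫ t in (0 : ℝ)..T, DD (hs T a) (hs T b) t with hI1
  have hT0 : T ≠ 0 := by linarith
  have e3 : 1 / T * (I2 - 2 * L * I1 + L ^ 2 * T) - 1 / Real.pi ^ 2 * Real.log L =
      (1 / T * I2 - TT T L / Xf T - 2 * L * (1 / T * I1 - L)) +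
      (TT T L / Xf T - (L ^ 2 + 1 / Real.pi ^ 2 * Real.log L)) := by
    field_simp
    ring
  rw [e3]
  refine (abs_add_le _ _).trans ?_
  linarith

/-- the centred counting function at a scaled point -/
noncomputable def sx (T x t : ℝ) : ℝ := (NZ (t + 2 * Real.pi * x / Real.log T) : ℝ) - x

lemma sx_sub (T a b t : ℝ) : sx T b t - sx T a t = DD (hs T a) (hs T b) t - (b - a) := by
  unfold sx DD hs
  ring

lemma var_sym : ∃ C : ℝ, 0 ≤ C ∧ ∀ a b : ℝ, 1 ≤ |a - b| → ∀ᶠ T : ℝ in atTop,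
    |1 / T * (∫ t in (0 : ℝ)..T, (sx T a t - sx T b t) ^ 2) -
      1 / Real.pi ^ 2 * (Real.log |a - b|)| ≤ C := by
  obtain ⟨C, hC, h⟩ := var_lim
  refine ⟨C, hC, fun a b hab => ?_⟩
  rcases le_abs.1 hab with h1 | h1
  · rw [abs_of_nonneg (by linarith)]
    simp_rw [sx_sub]
    exact h b a h1
  · rw [abs_of_nonpos (by linarith), neg_sub]
    have e : ∀ T t : ℝ, (sx T a t - sx T b t) ^ 2 = (sx T b t - sx T a t) ^ 2 := fun T t => by
      ring
    simp_rw [e, sx_sub]
    exact h a b (by linarith)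

lemma polar {n : ℕ} (d s : Fin n → ℝ) (hd : ∑ j, d j = 0) :
    (∑ j, d j * s j) ^ 2 = -(1 / 2) * ∑ j, ∑ k, d j * d k * (s j - s k) ^ 2 := by
  have h1 : ∑ j, ∑ k, d j * d k * (s j - s k) ^ 2 =
      ∑ j, ∑ k, d k * (d j * s j ^ 2) - 2 * (∑ j, ∑ k, (d j * s j) * (d k * s k)) +
      ∑ j, ∑ k, d j * (d k * s k ^ 2) := by
    rw [Finset.mul_sum, ← Finset.sum_sub_distrib, ← Finset.sum_add_distrib]
    refine Finset.sum_congr rfl fun j _ => ?_
    rw [Finset.mul_sum, ← Finset.sum_sub_distrib, ← Finset.sum_add_distrib]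
    refine Finset.sum_congr rfl fun k _ => ?_
    ring
  have h2 : ∑ j, ∑ k, d k * (d j * s j ^ 2) = 0 := by
    refine Finset.sum_eq_zero fun j _ => ?_
    rw [← Finset.sum_mul, hd, zero_mul]
  have h3 : ∑ j, ∑ k, d j * (d k * s k ^ 2) = 0 := by
    rw [← Finset.sum_mul_sum, hd, zero_mul]
  rw [h1, h2, h3, ← Finset.sum_mul_sum]
  ring

lemma sx_ii (T a b A B : ℝ) :
    IntervalIntegrable (fun t => (sx T a t - sx T b t) ^ 2) volume A B := by
  simp_rw [sx_sub]
  have h2 := DD_ii (hs T b) (hs T a) 2 A B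
  have h1 : IntervalIntegrable (fun t => DD (hs T b) (hs T a) t) volume A B := by
    have := DD_ii (hs T b) (hs T a) 1 A B
    simpa using this
  have e : (fun t => (DD (hs T b) (hs T a) t - (a - b)) ^ 2) = fun t =>
      DD (hs T b) (hs T a) t ^ 2 - 2 * (a - b) * DD (hs T b) (hs T a) t + (a - b) ^ 2 := by
    funext t
    ring
  rw [e]
  exact (h2.sub (h1.const_mul _)).add (by simp)

/-- **the covariances** -/
theorem cov_lim : ∃ C : ℝ, 0 ≤ C ∧ ∀ (n : ℕ) (x d : Fin n → ℝ),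
    (∀ j k, j ≠ k → 1 ≤ |x j - x k|) → ∑ j, d j = 0 → ∀ᶠ T : ℝ in atTop,
      |1 / T * (∫ t in (0 : ℝ)..T, (∑ j, d j * sx T (x j) t) ^ 2) +
        1 / (2 * Real.pi ^ 2) * ∑ j, ∑ k ∈ Finset.univ.erase j,
          d j * d k * (Real.log |x j - x k|)| ≤ C * (∑ j, |d j|) ^ 2 := by
  classical
  obtain ⟨C, hC, h⟩ := var_sym
  refine ⟨C, hC, fun n x d hx hd => ?_⟩
  have h1 : ∀ᶠ T : ℝ in atTop, ∀ p : Fin n × Fin n, p.1 ≠ p.2 →
      |1 / T * (∫ t in (0 : ℝ)..T, (sx T (x p.1) t - sx T (x p.2) t) ^ 2) -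
        1 / Real.pi ^ 2 * (Real.log |x p.1 - x p.2|)| ≤ C := by
    rw [eventually_all]
    intro p
    by_cases hp : p.1 = p.2
    · exact Eventually.of_forall fun T h => absurd hp h
    · filter_upwards [h (x p.1) (x p.2) (hx _ _ hp)] with T hT _
      exact hT
  filter_upwards [h1] with T hT
  have e1 : ∫ t in (0 : ℝ)..T, (∑ j, d j * sx T (x j) t) ^ 2 =
      -(1 / 2) * ∑ j, ∑ k, d j * d k * ∫ t in (0 : ℝ)..T, (sx T (x j) t - sx T (x k) t) ^ 2 := by
    have e2 : ∀ t ∈ Set.uIcc (0 : ℝ) T, (∑ j, d j * sx T (x j) t) ^ 2 =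
        -(1 / 2) * ∑ j, ∑ k, d j * d k * (sx T (x j) t - sx T (x k) t) ^ 2 :=
      fun t _ => polar d (fun j => sx T (x j) t) hd
    have i1 : ∀ j k : Fin n, IntervalIntegrable
        (fun t => d j * d k * (sx T (x j) t - sx T (x k) t) ^ 2) volume 0 T :=
      fun j k => (sx_ii T (x j) (x k) 0 T).const_mul _
    have i2 : ∀ j : Fin n, IntervalIntegrable
        (fun t => ∑ k, d j * d k * (sx T (x j) t - sx T (x k) t) ^ 2) volume 0 T := by
      intro j
      have := IntervalIntegrable.sum Finset.univ fun k _ => i1 j k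
      refine this.congr (fun y _ => ?_)
      simp [Finset.sum_apply]
    rw [intervalIntegral.integral_congr e2, intervalIntegral.integral_const_mul,
      intervalIntegral.integral_finsetSum fun j _ => i2 j]
    congr 1
    refine Finset.sum_congr rfl fun j _ => ?_
    rw [intervalIntegral.integral_finsetSum fun k _ => i1 j k]
    refine Finset.sum_congr rfl fun k _ => ?_
    rw [intervalIntegral.integral_const_mul]
  rw [e1]
  have e3 : 1 / T * (-(1 / 2) * ∑ j, ∑ k, d j * d k *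
      ∫ t in (0 : ℝ)..T, (sx T (x j) t - sx T (x k) t) ^ 2) =
      -(1 / 2) * ∑ j, ∑ k ∈ Finset.univ.erase j, d j * d k *
        (1 / T * ∫ t in (0 : ℝ)..T, (sx T (x j) t - sx T (x k) t) ^ 2) := by
    rw [mul_left_comm]
    congr 1
    rw [Finset.mul_sum]
    refine Finset.sum_congr rfl fun j _ => ?_
    rw [← Finset.add_sum_erase Finset.univ _ (Finset.mem_univ j)]
    simp only [sub_self, ne_eq, OfNat.ofNat_ne_zero, not_false_eq_true, zero_pow,
      intervalIntegral.integral_zero, mul_zero, zero_add]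
    rw [Finset.mul_sum]
    refine Finset.sum_congr rfl fun k _ => ?_
    ring
  rw [e3]
  have e4 : -(1 / 2) * ∑ j, ∑ k ∈ Finset.univ.erase j, d j * d k *
        (1 / T * ∫ t in (0 : ℝ)..T, (sx T (x j) t - sx T (x k) t) ^ 2) +
      1 / (2 * Real.pi ^ 2) * ∑ j, ∑ k ∈ Finset.univ.erase j,
          d j * d k * Real.log |x j - x k| =
      -(1 / 2) * ∑ j, ∑ k ∈ Finset.univ.erase j, d j * d k *
        (1 / T * (∫ t in (0 : ℝ)..T, (sx T (x j) t - sx T (x k) t) ^ 2) -
          1 / Real.pi ^ 2 * Real.log |x j - x k|) := by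
    have e5 : 1 / (2 * Real.pi ^ 2) * ∑ j, ∑ k ∈ Finset.univ.erase j,
          d j * d k * Real.log |x j - x k| =
        -(1 / 2) * ∑ j, ∑ k ∈ Finset.univ.erase j,
          -(d j * d k * (1 / Real.pi ^ 2 * Real.log |x j - x k|)) := by
      rw [Finset.mul_sum, Finset.mul_sum]
      refine Finset.sum_congr rfl fun j _ => ?_
      rw [Finset.mul_sum, Finset.mul_sum]
      refine Finset.sum_congr rfl fun k _ => ?_
      ring
    rw [e5, ← mul_add, ← Finset.sum_add_distrib]
    congr 1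
    refine Finset.sum_congr rfl fun j _ => ?_
    rw [← Finset.sum_add_distrib]
    refine Finset.sum_congr rfl fun k _ => ?_
    ring
  rw [e4, abs_mul]
  have h2 : |∑ j, ∑ k ∈ Finset.univ.erase j, d j * d k *
        (1 / T * (∫ t in (0 : ℝ)..T, (sx T (x j) t - sx T (x k) t) ^ 2) -
          1 / Real.pi ^ 2 * Real.log |x j - x k|)| ≤ C * (∑ j, |d j|) ^ 2 := by
    rw [sq (∑ j, |d j|), Finset.sum_mul_sum, Finset.mul_sum]
    refine (Finset.abs_sum_le_sum_abs _ _).trans (Finset.sum_le_sum fun j _ => ?_)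
    rw [Finset.mul_sum]
    refine (Finset.abs_sum_le_sum_abs _ _).trans ?_
    refine (Finset.sum_le_sum (f := fun k => _) (g := fun k => C * (|d j| * |d k|))
      fun k hk => ?_).trans (Finset.sum_le_sum_of_subset_of_nonneg (Finset.erase_subset _ _)
        fun k _ _ => by positivity)
    rw [Finset.mem_erase] at hk
    rw [abs_mul, abs_mul, mul_comm C]
    exact mul_le_mul_of_nonneg_left (hT (j, k) (fun h => hk.1 h.symm)) (by positivity)
  have h3 : |(-(1 / 2) : ℝ)| = 1 / 2 := by norm_num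
  rw [h3]
  have h4 := abs_nonneg (∑ j, ∑ k ∈ Finset.univ.erase j, d j * d k *
        (1 / T * (∫ t in (0 : ℝ)..T, (sx T (x j) t - sx T (x k) t) ^ 2) -
          1 / Real.pi ^ 2 * Real.log |x j - x k|))
  linarith

end Pool.Agent.Q276.NV
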