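import Mathlib
import Pool.Agent.Y750.OM.Conv1

/-! Cosine transforms of smooth functions with compact support. -/

set_option autoImplicit false

open Filter Topology Set MeasureTheory FourierTransform
open scoped ContDiff SchwartzMap

namespace Pool.Agent.Q276.NV

open Pool.Agent.Y750.OM (bl)

lemma bl_schwartz {r : ℝ → ℝ} (hr : ContDiff ℝ ∞ r) (hc : HasCompactSupport r) :
    ∃ F : 𝓢(ℝ, ℂ), ∀ y, bl r y = (F y).re := by
  have hcs : HasCompactSupport (fun x : ℝ => ((r x : ℝ) : ℂ)) := hc.comp_left (g := fun x : ℝ => (x : ℂ)) rfl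
  have hcd : ContDiff ℝ ∞ (fun x : ℝ => ((r x : ℝ) : ℂ)) := Complex.ofRealCLM.contDiff.comp hr
  refine ⟨𝓕 (hcs.toSchwartzMap hcd), fun y => ?_⟩
  have h1 : (𝓕 (hcs.toSchwartzMap hcd)) y = 𝓕 (fun x : ℝ => ((r x : ℝ) : ℂ)) y := rfl
  rw [h1, Real.fourier_real_eq_integral_exp_smul]
  unfold bl
  have hint : Integrable fun v : ℝ => Complex.exp (↑(-2 * Real.pi * v * y) * Complex.I) • ((r v : ℝ) : ℂ) := by
    apply Continuous.integrable_of_hasCompactSupport
    · have := hr.continuous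
      fun_prop
    · refine hcs.mono (fun v hv => ?_)
      rw [Function.mem_support] at hv ⊢
      intro h0
      apply hv
      rw [h0, smul_zero]
  have h2 := integral_re hint
  have h3 : ∀ v : ℝ, RCLike.re (Complex.exp (↑(-2 * Real.pi * v * y) * Complex.I) • ((r v : ℝ) : ℂ)) =
      r v * Real.cos (2 * Real.pi * v * y) := by
    intro v
    have e1 : (↑(-2 * Real.pi * v * y) : ℂ) * Complex.I =
        ((-(2 * Real.pi * v * y) : ℝ) : ℂ) * Complex.I := by push_cast; ring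
    rw [e1, Complex.exp_mul_I, ← Complex.ofReal_cos, ← Complex.ofReal_sin, Real.cos_neg,
      Real.sin_neg, smul_eq_mul]
    have e2 : (((Real.cos (2 * Real.pi * v * y) : ℝ) : ℂ) +
        ((-Real.sin (2 * Real.pi * v * y) : ℝ) : ℂ) * Complex.I) * ((r v : ℝ) : ℂ) =
        ((r v * Real.cos (2 * Real.pi * v * y) : ℝ) : ℂ) +
        ((r v * -Real.sin (2 * Real.pi * v * y) : ℝ) : ℂ) * Complex.I := by
      simp only [Complex.ofReal_mul]; ring
    rw [e2]
    simp only [RCLike.re_to_complex, Complex.add_re, Complex.re_ofReal_mul, Complex.I_re,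
      mul_zero, add_zero, Complex.ofReal_re]
  simp_rw [h3] at h2
  exact h2

/-- decay and scaling -/
theorem bl_smooth {r : ℝ → ℝ} (hr : ContDiff ℝ ∞ r) (hc : HasCompactSupport r) :
    (∃ A : ℝ, 0 ≤ A ∧ ∀ y, |bl r y| ≤ A / (1 + y ^ 2)) ∧
    (∃ C : ℝ, 0 ≤ C ∧ ∀ y s : ℝ, 1 ≤ s → |bl r (s * y) - bl r y| ≤ C * (s - 1) / (1 + y ^ 2)) := by
  obtain ⟨F, hF⟩ := bl_schwartz hr hc
  constructor
  · obtain ⟨A0, hA0⟩ := F.decay 0 0
    obtain ⟨A2, hA2⟩ := F.decay 2 0
    simp only [pow_zero, one_mul, norm_iteratedFDeriv_zero] at hA0 hA2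
    have h0 : 0 ≤ A0 := (norm_nonneg _).trans (hA0.2 0)
    have h2 : 0 ≤ A2 := hA2.1.le
    refine ⟨A0 + A2, by positivity, fun y => ?_⟩
    rw [hF, le_div_iff₀ (by positivity)]
    have g1 := hA0.2 y
    have g2 := hA2.2 y
    rw [Real.norm_eq_abs, sq_abs] at g2
    have g3 := Complex.abs_re_le_norm (F y)
    calc |(F y).re| * (1 + y ^ 2) ≤ ‖F y‖ * (1 + y ^ 2) :=
          mul_le_mul_of_nonneg_right g3 (by positivity)
      _ = ‖F y‖ + y ^ 2 * ‖F y‖ := by ring
      _ ≤ A0 + A2 := add_le_add g1 g2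
  · obtain ⟨B0, hB0, hB0'⟩ := F.decay 1 1
    obtain ⟨B3, hB3, hB3'⟩ := F.decay 3 1
    have hd : ∀ x, HasDerivAt (fun y => (F y).re) ((deriv F x).re) x := by
      intro x
      have h1 : HasDerivAt F (deriv F x) x := (F.differentiable x).hasDerivAt
      exact (Complex.reCLM.hasFDerivAt.comp_hasDerivAt x h1)
    have hn : ∀ x, ‖iteratedFDeriv ℝ 1 F x‖ = ‖deriv F x‖ := by
      intro x
      rw [← iteratedDeriv_one, norm_iteratedFDeriv_eq_norm_iteratedDeriv]
    refine ⟨B0 + B3, by positivity, fun y s hs => ?_⟩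
    rw [hF, hF]
    -- bound of the derivative along the ray
    have hb : ∀ τ ∈ Icc (1 : ℝ) s, |y * ((deriv F (τ * y)).re)| ≤ (B0 + B3) / (1 + y ^ 2) := by
      intro τ hτ
      have hτ1 : 1 ≤ τ := hτ.1
      have g1 := hB0' (τ * y)
      have g3 := hB3' (τ * y)
      rw [hn] at g1 g3
      rw [Real.norm_eq_abs] at g1 g3
      have g4 := Complex.abs_re_le_norm (deriv F (τ * y))
      rw [abs_mul, le_div_iff₀ (by positivity)]
      have e1 : |y| ≤ |τ * y| := by
        rw [abs_mul, abs_of_pos (by linarith : 0 < τ)]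
        nlinarith [abs_nonneg y]
      set N := ‖deriv F (τ * y)‖ with hN
      have hN0 : 0 ≤ N := norm_nonneg _
      calc |y| * |(deriv F (τ * y)).re| * (1 + y ^ 2) ≤ |y| * N * (1 + y ^ 2) := by gcongr
        _ = |y| ^ 1 * N + |y| ^ 3 * N := by
            rw [← sq_abs y]; ring
        _ ≤ |τ * y| ^ 1 * N + |τ * y| ^ 3 * N := by gcongr
        _ ≤ B0 + B3 := add_le_add g1 g3
    have hdd : ∀ τ ∈ Icc (1 : ℝ) s, HasDerivWithinAt (fun τ : ℝ => (F (τ * y)).re)
        (y * (deriv F (τ * y)).re) (Icc 1 s) τ := by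
      intro τ _
      have h1 : HasDerivAt (fun τ : ℝ => τ * y) y τ := by
        simpa using (hasDerivAt_id τ).mul_const y
      have h2 := (hd (τ * y)).comp τ h1
      rw [mul_comm] at h2
      exact h2.hasDerivWithinAt
    have h5 := Convex.norm_image_sub_le_of_norm_hasDerivWithin_le (f := fun τ : ℝ => (F (τ * y)).re)
      (C := (B0 + B3) / (1 + y ^ 2)) hdd
      (fun τ hτ => by rw [Real.norm_eq_abs]; exact hb τ hτ) (convex_Icc 1 s)
      (left_mem_Icc.2 hs) (right_mem_Icc.2 hs)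
    simp only [one_mul] at h5
    rw [Real.norm_eq_abs, Real.norm_eq_abs, abs_of_nonneg (by linarith : 0 ≤ s - 1)] at h5
    refine h5.trans (le_of_eq ?_)
    ring

end Pool.Agent.Q276.NV
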