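import Pool.Agent.Q276.NV.A1
import Pool.Agent.Q276.UR.N1
import Pool.Agent.Q241.OP.Asm

/-! The test function: the transform of a triangle, cut off smoothly. -/

set_option autoImplicit false

open Filter Topology Set MeasureTheory FourierTransform
open scoped ContDiff

namespace Pool.Agent.Q276.NV

open H177.Lat (KK tri KK_zero KK_nonneg KK_le KK_sq tri_cont tri_zero)
open Pool.Agent.Q276.LR (four_tri)
open Pool.Agent.Y750.OM (bl rh PO)
open Pool.Agent.Q276.UR (PSm PSm_eq pair_basic pair_upper Cut Cut_out Cut_cont Cut_lip bl_decay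
  bl_sub PSm_sub int_abs_cut ct ct_nonneg ct_le_one ct_zero one_sub_ct ct_out)
open Q241.OP (OT mo BlkE Qb Qb_eq nn_lim)
open H370 (NN)
open Pool.Agent.Y744 (Xf Xf_pos)

/-- `(sin (π L x) / (π x))²` -/
noncomputable def GG (L x : ℝ) : ℝ := L ^ 2 * KK 1 (L * x)

lemma KK1_smooth : ContDiff ℝ ∞ (KK 1) := by
  have h1 : ContDiff ℝ ((⊤ : ℕ∞) : WithTop ℕ∞) (𝓕 (fun u : ℝ => ((tri 1 u : ℝ) : ℂ))) := by
    apply Real.contDiff_fourier
    intro n _
    have hc : Continuous fun v : ℝ => ‖v‖ ^ n * ‖((tri 1 v : ℝ) : ℂ)‖ := by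
      have := tri_cont 1
      fun_prop
    apply hc.integrable_of_hasCompactSupport
    apply HasCompactSupport.intro (isCompact_Icc (a := (-1 : ℝ)) (b := 1))
    intro x hx
    have : 1 ≤ |x| := by
      by_contra h
      push Not at h
      obtain ⟨h3, h4⟩ := abs_lt.1 h
      exact hx ⟨h3.le, h4.le⟩
    rw [tri_zero one_pos this]
    simp
  have h2 : KK 1 = fun x => Complex.reCLM (𝓕 (fun u : ℝ => ((tri 1 u : ℝ) : ℂ)) x) := by
    funext x
    rw [four_tri one_pos]
    simp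
  rw [h2]
  exact Complex.reCLM.contDiff.comp h1

lemma GG_smooth (L : ℝ) : ContDiff ℝ ∞ (GG L) := by
  unfold GG
  exact contDiff_const.mul (KK1_smooth.comp (contDiff_const.mul contDiff_id))

lemma GG_nonneg (L x : ℝ) : 0 ≤ GG L x := mul_nonneg (sq_nonneg _) (KK_nonneg one_pos _)

lemma GG_sq (L x : ℝ) : x ^ 2 * GG L x ≤ 1 := by
  have h1 := KK_sq one_pos (L * x)
  unfold GG
  calc x ^ 2 * (L ^ 2 * KK 1 (L * x)) = KK 1 (L * x) * (L * x) ^ 2 := by ring
    _ ≤ 1 := by simpa using h1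

lemma GG_zero (L : ℝ) : GG L 0 = L ^ 2 := by
  unfold GG
  rw [mul_zero, KK_zero one_pos, mul_one]

/-- smooth cutoff -/
noncomputable def ch (x : ℝ) : ℝ := Real.smoothTransition (16 / 3 * (1 / 4 - x ^ 2))

lemma ch_smooth : ContDiff ℝ ∞ ch := by
  unfold ch
  exact Real.smoothTransition.contDiff.comp (contDiff_const.mul (contDiff_const.sub
    (contDiff_id.pow 2)))

lemma ch_nonneg (x : ℝ) : 0 ≤ ch x := Real.smoothTransition.nonneg _

lemma ch_le_one (x : ℝ) : ch x ≤ 1 := Real.smoothTransition.le_one _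

lemma ch_one {x : ℝ} (h : |x| ≤ 1 / 4) : ch x = 1 := by
  apply Real.smoothTransition.one_of_one_le
  have : x ^ 2 ≤ 1 / 16 := by
    rw [← sq_abs]
    nlinarith [abs_nonneg x]
  linarith

lemma ch_zero {x : ℝ} (h : 1 / 2 ≤ |x|) : ch x = 0 := by
  apply Real.smoothTransition.zero_of_nonpos
  have : 1 / 4 ≤ x ^ 2 := by
    rw [← sq_abs]
    nlinarith [abs_nonneg x]
  linarith

/-- the test function -/
noncomputable def rr (L x : ℝ) : ℝ := GG L x * ch x

lemma rr_smooth (L : ℝ) : ContDiff ℝ ∞ (rr L) := by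
  unfold rr
  exact (GG_smooth L).mul ch_smooth

lemma rr_out {L x : ℝ} (h : 1 / 2 ≤ |x|) : rr L x = 0 := by
  unfold rr; rw [ch_zero h, mul_zero]

lemma rr_compact (L : ℝ) : HasCompactSupport (rr L) := by
  apply HasCompactSupport.intro (isCompact_Icc (a := (-(1 / 2) : ℝ)) (b := 1 / 2))
  intro x hx
  apply rr_out
  by_contra h
  push Not at h
  exact hx (abs_le.1 h.le)

lemma rr_lip (L : ℝ) : ∃ K : ℝ, ∀ x y, |rr L x - rr L y| ≤ K * |x - y| := by
  obtain ⟨K, hK⟩ := (contDiff_infty.1 (rr_smooth L) 1).lipschitzWith_of_hasCompactSupport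
    (rr_compact L) (by norm_num)
  refine ⟨K, fun x y => ?_⟩
  have := hK.dist_le_mul x y
  rwa [Real.dist_eq, Real.dist_eq] at this

lemma OT_rr (L : ℝ) : OT (rr L) (1 / 2) where
  lip := rr_lip L
  supp := fun _ h => rr_out h.le
  decay := (bl_smooth (rr_smooth L) (rr_compact L)).1
  scale := (bl_smooth (rr_smooth L) (rr_compact L)).2

lemma BlkE_of {r : ℝ → ℝ} {E : ℝ} (hE : 0 ≤ E) (h : ∀ ε : ℝ, 0 < ε → ∀ᶠ V : ℝ in atTop,
    |PSm r V - NN riemannZeta V (2 * V) * mo r| ≤ (E + ε) * NN riemannZeta V (2 * V)) :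
    BlkE r E := by
  intro ε hε
  set M : ℝ := 4 * (|mo r| + E + ε + 1) with hM
  have hM0 : 0 < M := by positivity
  have h2 := (Metric.tendsto_nhds.1 nn_lim) (ε / M) (by positivity)
  filter_upwards [eventually_ge_atTop (10 : ℝ), h (ε / 4) (by positivity), h2] with V hV h3 hn
  have hV1 : 1 ≤ V := by linarith
  have hX := Xf_pos (V := V) (by linarith)
  rw [Qb_eq, PSm_eq hV1]
  set n : ℝ := (NN riemannZeta V (2 * V) : ℝ) with hn'
  have hn0 : 0 ≤ n := Nat.cast_nonneg _
  set X := Xf V with hXdef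
  rw [Real.dist_eq] at hn
  have e : PSm r V / X - mo r = (PSm r V - n * mo r) / X + mo r * (n / X - 1) := by
    field_simp
    ring
  rw [e]
  refine (abs_add_le _ _).trans ?_
  have a1 : |(PSm r V - n * mo r) / X| ≤ (E + ε / 4) * (n / X) := by
    rw [abs_div, abs_of_pos hX, ← mul_div_assoc]
    exact div_le_div_of_nonneg_right h3 hX.le
  have a2 : n / X ≤ 1 + ε / M := by
    have := (abs_lt.1 hn).2
    linarith
  have a3 : |mo r * (n / X - 1)| ≤ |mo r| * (ε / M) := by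
    rw [abs_mul]
    exact mul_le_mul_of_nonneg_left hn.le (abs_nonneg _)
  have a4 : (E + ε / 4) * (n / X) ≤ (E + ε / 4) * (1 + ε / M) :=
    mul_le_mul_of_nonneg_left a2 (by positivity)
  have a5 : (|mo r| + E + ε / 4) * (ε / M) ≤ ε / 4 := by
    rw [hM, ← mul_div_assoc, div_le_div_iff₀ (by positivity) (by norm_num)]
    have := abs_nonneg (mo r)
    nlinarith
  nlinarith

/-- the blocks for the test function -/
theorem BlkE_rr : ∃ E0 : ℝ, 0 ≤ E0 ∧ ∀ L : ℝ, BlkE (rr L) E0 := by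
  obtain ⟨C1, hC1, h1⟩ := pair_upper
  obtain ⟨C2, hC2, h2⟩ := pair_basic
  refine ⟨C1 + 2 * C2, by positivity, fun L => BlkE_of (by positivity) fun ε hε => ?_⟩
  have hg2 : ContDiff ℝ 2 (GG L) := contDiff_infty.1 (GG_smooth L) 2
  obtain ⟨T1, hT1, h1⟩ := h1 (GG L) hg2 (GG_nonneg L) 1 (GG_sq L) (ε / 2) (by positivity)
  set d : ℝ → ℝ := fun x => rr L x - Cut (GG L) 2 x with hd
  have s1 : ∀ α, 1 / 2 < |α| → rr L α = 0 := fun α h => rr_out h.le
  have s2 : ∀ α, 1 / 2 < |α| → Cut (GG L) 2 α = 0 := fun α h => Cut_out (by norm_num) h.le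
  have hbl : ∀ u, Pool.Agent.Q276.UR.bl d u =
      Pool.Agent.Q276.UR.bl (rr L) u - Pool.Agent.Q276.UR.bl (Cut (GG L) 2) u :=
    bl_sub (rr_smooth L).continuous (Cut_cont (GG_smooth L).continuous 2) s1 s2 (fun _ => rfl)
  obtain ⟨T2, hT2, h2⟩ := h2 (1 / 2) (by norm_num) le_rfl d
    (by
      obtain ⟨K1, hK1⟩ := rr_lip L
      obtain ⟨K2, hK2⟩ := Cut_lip hg2 (by norm_num : (0 : ℝ) < 2)
      refine ⟨K1 + K2, fun x y => ?_⟩
      have : d x - d y = (rr L x - rr L y) - (Cut (GG L) 2 x - Cut (GG L) 2 y) := by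
        simp only [hd]; ring
      rw [this, add_mul]
      exact (abs_sub _ _).trans (add_le_add (hK1 x y) (hK2 x y)))
    (fun α h => by simp only [hd]; rw [s1 α h, s2 α h, sub_self])
    (by
      obtain ⟨A1, hA1, hA1'⟩ := (OT_rr L).decay
      obtain ⟨A2, hA2⟩ := bl_decay hg2 (by norm_num : (0 : ℝ) < 2)
      refine ⟨A1 + A2, fun u => ?_⟩
      rw [hbl]
      have h3 := abs_sub (Pool.Agent.Q276.UR.bl (rr L) u) (Pool.Agent.Q276.UR.bl (Cut (GG L) 2) u)
      have h4 : 0 ≤ 1 + u ^ 2 := by positivity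
      have h5 : |Pool.Agent.Q276.UR.bl (rr L) u| * (1 + u ^ 2) ≤ A1 := by
        have := hA1' u
        rw [le_div_iff₀ (by positivity)] at this
        exact this
      calc |Pool.Agent.Q276.UR.bl (rr L) u - Pool.Agent.Q276.UR.bl (Cut (GG L) 2) u| * (1 + u ^ 2)
          ≤ (|Pool.Agent.Q276.UR.bl (rr L) u| + |Pool.Agent.Q276.UR.bl (Cut (GG L) 2) u|) *
            (1 + u ^ 2) := mul_le_mul_of_nonneg_right h3 h4
        _ = |Pool.Agent.Q276.UR.bl (rr L) u| * (1 + u ^ 2) +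
            |Pool.Agent.Q276.UR.bl (Cut (GG L) 2) u| * (1 + u ^ 2) := by ring
        _ ≤ A1 + A2 := add_le_add h5 (hA2 u))
    16
    (by
      intro α
      have e1 : d α = GG L α * (ch α - ct 2 α) := by
        simp only [hd]; unfold rr Cut; ring
      rw [e1, abs_mul, abs_of_nonneg (GG_nonneg L α)]
      have g0 := GG_nonneg L α
      have g1 := GG_sq L α
      rcases le_or_gt |α| (1 / 4) with h | h
      · rw [ch_one h, abs_of_nonneg (by linarith [ct_le_one 2 α])]
        have g2 := one_sub_ct 2 α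
        calc GG L α * (1 - ct 2 α) ≤ GG L α * (2 * (2 * α) ^ 2) :=
              mul_le_mul_of_nonneg_left g2 g0
          _ = 8 * (α ^ 2 * GG L α) := by ring
          _ ≤ 16 := by linarith
      · have g3 : |ch α - ct 2 α| ≤ 1 := by
          rw [abs_le]
          constructor <;> linarith [ct_le_one 2 α, ct_nonneg 2 α, ch_nonneg α, ch_le_one α]
        have g4 : 1 / 16 ≤ α ^ 2 := by
          rw [← sq_abs]
          nlinarith [abs_nonneg α]
        have g5 : GG L α ≤ 16 := by nlinarith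
        calc GG L α * |ch α - ct 2 α| ≤ 16 * 1 := mul_le_mul g5 g3 (abs_nonneg _) (by norm_num)
          _ = 16 := by norm_num)
    (ε / 2) (by positivity)
  filter_upwards [eventually_ge_atTop (max T1 T2)] with V hV
  have g1 := h1 V ((le_max_left _ _).trans hV)
  have g2 := h2 V ((le_max_right _ _).trans hV)
  rw [PSm_sub hbl] at g2
  have hd0 : d 0 = 0 := by
    simp only [hd]
    unfold rr Cut
    rw [ct_zero, ch_one (by simp), sub_self]
  have hir : Integrable fun α : ℝ => |α| * rr L α := by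
    apply Continuous.integrable_of_hasCompactSupport
    · exact continuous_abs.mul (rr_smooth L).continuous
    · exact (rr_compact L).mul_left
  have hint : ∫ α : ℝ, |α| * d α = (∫ α : ℝ, |α| * rr L α) - ∫ α : ℝ, |α| * Cut (GG L) 2 α := by
    rw [← integral_sub hir (int_abs_cut (GG_smooth L).continuous (by norm_num))]
    congr 1
    funext α
    simp only [hd]
    ring
  rw [hd0, zero_add, hint] at g2
  have hr0 : rr L 0 = GG L 0 := by
    unfold rr
    rw [ch_one (by simp), mul_one]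
  unfold mo
  rw [hr0]
  have e5 : PSm (rr L) V - (NN riemannZeta V (2 * V) : ℝ) * (GG L 0 + ∫ α : ℝ, |α| * rr L α) =
      ((PSm (rr L) V - PSm (Cut (GG L) 2) V) - (NN riemannZeta V (2 * V) : ℝ) *
        ((∫ α : ℝ, |α| * rr L α) - ∫ α : ℝ, |α| * Cut (GG L) 2 α)) +
      (PSm (Cut (GG L) 2) V - (NN riemannZeta V (2 * V) : ℝ) *
        (GG L 0 + ∫ α : ℝ, |α| * Cut (GG L) 2 α)) := by ring
  rw [e5]
  refine (abs_add_le _ _).trans ((add_le_add g2 g1).trans (le_of_eq ?_))
  ring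

end Pool.Agent.Q276.NV
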