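import Pool.Agent.Q276.NV.A2

/-! The predicted value for the test function. -/

set_option autoImplicit false

open Filter Topology Set MeasureTheory
open scoped ContDiff

namespace Pool.Agent.Q276.NV

open H177.Lat (KK tri KK_zero KK_nonneg KK_le KK_sq KK_ne)
open Q241.OP (mo)

lemma KK1_formula {x : ℝ} (hx : 0 < x) :
    x * KK 1 x = 1 / (2 * Real.pi ^ 2) * (x⁻¹ - Real.cos (2 * Real.pi * x) / x) := by
  rw [KK_ne one_pos hx.ne']
  have h1 : Real.cos (2 * Real.pi * x) = 1 - 2 * Real.sin (Real.pi * x) ^ 2 := by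
    rw [show 2 * Real.pi * x = 2 * (Real.pi * x) by ring, Real.cos_two_mul, Real.cos_sq']
    ring
  rw [h1, one_mul, one_mul]
  have hpi := Real.pi_pos
  field_simp
  ring

lemma KK1_cont : Continuous (KK 1) := KK1_smooth.continuous

/-- oscillating integral -/
lemma osc {b : ℝ} (hb : 1 / 4 ≤ b) :
    |∫ x in (1 / 4 : ℝ)..b, Real.cos (2 * Real.pi * x) / x| ≤ 6 / Real.pi := by
  have hpi := Real.pi_pos
  have hpos : ∀ x ∈ Set.uIcc (1 / 4 : ℝ) b, 0 < x := by
    intro x hx
    rw [Set.uIcc_of_le hb] at hx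
    linarith [hx.1]
  have hd : ∀ x ∈ Set.uIcc (1 / 4 : ℝ) b, HasDerivAt
      (fun x : ℝ => Real.sin (2 * Real.pi * x) / (2 * Real.pi * x))
      (Real.cos (2 * Real.pi * x) / x - Real.sin (2 * Real.pi * x) / (2 * Real.pi * x ^ 2)) x := by
    intro x hx
    have hx0 := hpos x hx
    have h1 : HasDerivAt (fun x : ℝ => 2 * Real.pi * x) (2 * Real.pi) x := by
      simpa using (hasDerivAt_id x).const_mul (2 * Real.pi)
    have h2 := h1.sin.div h1 (by positivity)
    refine h2.congr_deriv ?_
    field_simp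
  have c1 : ContinuousOn (fun x : ℝ => Real.cos (2 * Real.pi * x) / x) (Set.uIcc (1 / 4) b) :=
    ContinuousOn.div (by fun_prop) (by fun_prop) fun x hx => (hpos x hx).ne'
  have c2 : ContinuousOn (fun x : ℝ => Real.sin (2 * Real.pi * x) / (2 * Real.pi * x ^ 2))
      (Set.uIcc (1 / 4) b) :=
    ContinuousOn.div (by fun_prop) (by fun_prop) fun x hx => by
      have := hpos x hx
      positivity
  have h1 := intervalIntegral.integral_eq_sub_of_hasDerivAt hd
    (c1.intervalIntegrable.sub c2.intervalIntegrable)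
  rw [intervalIntegral.integral_sub c1.intervalIntegrable c2.intervalIntegrable] at h1
  have h2 : |∫ x in (1 / 4 : ℝ)..b, Real.sin (2 * Real.pi * x) / (2 * Real.pi * x ^ 2)| ≤
      2 / Real.pi := by
    have hd2 : ∀ x ∈ Set.uIcc (1 / 4 : ℝ) b, HasDerivAt (fun x : ℝ => -(2 * Real.pi * x)⁻¹)
        (1 / (2 * Real.pi * x ^ 2)) x := by
      intro x hx
      have hx0 := hpos x hx
      have h1 : HasDerivAt (fun x : ℝ => 2 * Real.pi * x) (2 * Real.pi) x := by
        simpa using (hasDerivAt_id x).const_mul (2 * Real.pi)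
      refine ((h1.inv (by positivity)).neg).congr_deriv ?_
      field_simp
    have c3 : ContinuousOn (fun x : ℝ => 1 / (2 * Real.pi * x ^ 2)) (Set.uIcc (1 / 4) b) :=
      ContinuousOn.div (by fun_prop) (by fun_prop) fun x hx => by
        have := hpos x hx
        positivity
    have h3 := intervalIntegral.integral_eq_sub_of_hasDerivAt hd2 c3.intervalIntegrable
    have hfg : ∀ x : ℝ, x ∈ Set.Ioc (1 / 4 : ℝ) b →
        ‖Real.sin (2 * Real.pi * x) / (2 * Real.pi * x ^ 2)‖ ≤ 1 / (2 * Real.pi * x ^ 2) := by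
      intro x hx
      have hx0 : 0 < x := by linarith [hx.1]
      rw [Real.norm_eq_abs, abs_div, abs_of_pos (by positivity : 0 < 2 * Real.pi * x ^ 2)]
      exact div_le_div_of_nonneg_right (Real.abs_sin_le_one _) (by positivity)
    have h40 := intervalIntegral.norm_integral_le_of_norm_le (μ := volume) hb
      (f := fun x : ℝ => Real.sin (2 * Real.pi * x) / (2 * Real.pi * x ^ 2))
      (g := fun x : ℝ => 1 / (2 * Real.pi * x ^ 2)) (ae_of_all _ hfg) c3.intervalIntegrable
    refine h40.trans ?_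
    · rw [h3]
      have h4 : 0 ≤ (2 * Real.pi * b)⁻¹ := by
        have : 0 < b := by linarith
        positivity
      have h5 : -(2 * Real.pi * (1 / 4))⁻¹ = -(2 / Real.pi) := by
        field_simp
        norm_num
      rw [h5]
      linarith
  have h3 : |Real.sin (2 * Real.pi * b) / (2 * Real.pi * b)| ≤ 2 / Real.pi := by
    have hb0 : 0 < b := by linarith
    rw [abs_div, abs_of_pos (by positivity : 0 < 2 * Real.pi * b), div_le_div_iff₀ (by positivity)
      hpi]
    have := Real.abs_sin_le_one (2 * Real.pi * b)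
    nlinarith
  have h4 : |Real.sin (2 * Real.pi * (1 / 4)) / (2 * Real.pi * (1 / 4))| ≤ 2 / Real.pi := by
    rw [abs_div, abs_of_pos (by positivity : 0 < 2 * Real.pi * (1 / 4)),
      div_le_div_iff₀ (by positivity) hpi]
    have := Real.abs_sin_le_one (2 * Real.pi * (1 / 4))
    nlinarith
  have e : (∫ x in (1 / 4 : ℝ)..b, Real.cos (2 * Real.pi * x) / x) =
      Real.sin (2 * Real.pi * b) / (2 * Real.pi * b) -
        Real.sin (2 * Real.pi * (1 / 4)) / (2 * Real.pi * (1 / 4)) +
      ∫ x in (1 / 4 : ℝ)..b, Real.sin (2 * Real.pi * x) / (2 * Real.pi * x ^ 2) := by linarith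
  rw [e]
  have h5 := abs_sub (Real.sin (2 * Real.pi * b) / (2 * Real.pi * b))
    (Real.sin (2 * Real.pi * (1 / 4)) / (2 * Real.pi * (1 / 4)))
  refine (abs_add_le _ _).trans ?_
  have h6 : 6 / Real.pi = 2 / Real.pi + 2 / Real.pi + 2 / Real.pi := by ring
  linarith

/-- the main integral -/
lemma int_xKK {L : ℝ} (hL : 1 ≤ L) :
    |(∫ x in (0 : ℝ)..(L / 4), x * KK 1 x) - 1 / (2 * Real.pi ^ 2) * Real.log L| ≤ 1 / 2 := by
  have hpi := Real.pi_gt_three
  have hc : Continuous fun x : ℝ => x * KK 1 x := continuous_id.mul KK1_cont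
  have hb : (1 / 4 : ℝ) ≤ L / 4 := by linarith
  have h1 := intervalIntegral.integral_add_adjacent_intervals (hc.intervalIntegrable 0 (1 / 4))
    (hc.intervalIntegrable (μ := volume) (1 / 4) (L / 4))
  have h2 : ∫ x in (1 / 4 : ℝ)..(L / 4), x * KK 1 x =
      1 / (2 * Real.pi ^ 2) * (Real.log L -
        ∫ x in (1 / 4 : ℝ)..(L / 4), Real.cos (2 * Real.pi * x) / x) := by
    have hpos : ∀ x ∈ Set.uIcc (1 / 4 : ℝ) (L / 4), 0 < x := by
      intro x hx
      rw [Set.uIcc_of_le hb] at hx
      linarith [hx.1]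
    have c1 : ContinuousOn (fun x : ℝ => Real.cos (2 * Real.pi * x) / x)
        (Set.uIcc (1 / 4) (L / 4)) :=
      ContinuousOn.div (by fun_prop) (by fun_prop) fun x hx => (hpos x hx).ne'
    have c2 : ContinuousOn (fun x : ℝ => x⁻¹) (Set.uIcc (1 / 4) (L / 4)) :=
      ContinuousOn.inv₀ (by fun_prop) fun x hx => (hpos x hx).ne'
    have e1 : ∫ x in (1 / 4 : ℝ)..(L / 4), x⁻¹ = Real.log L := by
      rw [integral_inv_of_pos (by norm_num) (by linarith)]
      congr 1
      ring
    rw [← e1, ← intervalIntegral.integral_sub c2.intervalIntegrable c1.intervalIntegrable,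
      ← intervalIntegral.integral_const_mul]
    apply intervalIntegral.integral_congr
    intro x hx
    exact KK1_formula (hpos x hx)
  have h3 := osc hb
  set J := ∫ x in (1 / 4 : ℝ)..(L / 4), Real.cos (2 * Real.pi * x) / x with hJ
  have h4 : |∫ x in (0 : ℝ)..(1 / 4), x * KK 1 x| ≤ 1 / 16 := by
    have h5 := intervalIntegral.norm_integral_le_of_norm_le_const (a := (0 : ℝ)) (b := 1 / 4)
      (f := fun x : ℝ => x * KK 1 x) (C := 1 / 4) (by
        intro x hx
        rw [Set.uIoc_of_le (by norm_num)] at hx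
        rw [Real.norm_eq_abs, abs_mul, abs_of_pos hx.1, abs_of_nonneg (KK_nonneg one_pos x)]
        have := KK_le one_pos x
        have := KK_nonneg one_pos x
        nlinarith [hx.1, hx.2])
    rw [Real.norm_eq_abs] at h5
    refine h5.trans (le_of_eq ?_)
    rw [sub_zero, abs_of_pos (by norm_num)]
    norm_num
  rw [← h1, h2]
  have e : (∫ x in (0 : ℝ)..(1 / 4), x * KK 1 x) + 1 / (2 * Real.pi ^ 2) * (Real.log L - J) -
      1 / (2 * Real.pi ^ 2) * Real.log L = (∫ x in (0 : ℝ)..(1 / 4), x * KK 1 x) -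
      1 / (2 * Real.pi ^ 2) * J := by ring
  rw [e]
  refine (abs_sub _ _).trans ?_
  rw [abs_mul, abs_of_pos (by positivity : 0 < 1 / (2 * Real.pi ^ 2))]
  have h6 : 1 / (2 * Real.pi ^ 2) * |J| ≤ 1 / 18 * 2 := by
    apply mul_le_mul _ _ (abs_nonneg _) (by norm_num)
    · rw [div_le_div_iff₀ (by positivity) (by norm_num)]
      nlinarith
    · refine h3.trans ?_
      rw [div_le_iff₀ (by positivity)]
      linarith
  linarith

/-- **the predicted value** -/
theorem mo_rr {L : ℝ} (hL : 1 ≤ L) :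
    |mo (rr L) - (L ^ 2 + 1 / Real.pi ^ 2 * Real.log L)| ≤ 3 := by
  have hpi := Real.pi_gt_three
  have hr0 : rr L 0 = L ^ 2 := by
    unfold rr
    rw [ch_one (by simp), mul_one, GG_zero]
  have hcr := (rr_smooth L).continuous
  have h1 : ∫ α : ℝ, |α| * rr L α = ∫ α in (-(1 / 2) : ℝ)..(1 / 2), |α| * rr L α := by
    symm
    apply intervalIntegral.integral_eq_integral_of_support_subset
    intro α hα
    by_contra h
    apply hα
    have : 1 / 2 ≤ |α| := by
      by_contra h2
      push Not at h2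
      obtain ⟨h3, h4⟩ := abs_lt.1 h2
      exact h ⟨h3, h4.le⟩
    show |α| * rr L α = 0
    rw [rr_out this, mul_zero]
  have hch_even : ∀ x, ch (-x) = ch x := fun x => by unfold ch; rw [neg_sq]
  have hKe : ∀ x, KK 1 (-x) = KK 1 x := by
    intro x
    unfold KK
    congr 1
    funext u
    rw [mul_neg, Real.cos_neg]
  have hre : ∀ x, rr L (-x) = rr L x := fun x => by
    unfold rr GG
    rw [hch_even, mul_neg, hKe]
  have hci : ∀ a b : ℝ, IntervalIntegrable (fun α : ℝ => |α| * rr L α) volume a b := fun a b =>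
    (continuous_abs.mul hcr).intervalIntegrable a b
  have h2 : ∫ α in (-(1 / 2) : ℝ)..(1 / 2), |α| * rr L α =
      2 * ∫ α in (0 : ℝ)..(1 / 2), |α| * rr L α := by
    rw [← intervalIntegral.integral_add_adjacent_intervals (hci _ 0) (hci 0 _)]
    have h3 := intervalIntegral.integral_comp_neg (a := (0 : ℝ)) (b := 1 / 2)
      (fun α : ℝ => |α| * rr L α)
    rw [neg_zero] at h3
    rw [← h3]
    simp_rw [abs_neg, hre]
    ring
  have h3 : ∫ α in (0 : ℝ)..(1 / 2), |α| * rr L α =
      (∫ α in (0 : ℝ)..(1 / 4), |α| * rr L α) + ∫ α in (1 / 4 : ℝ)..(1 / 2), |α| * rr L α :=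
    (intervalIntegral.integral_add_adjacent_intervals (hci _ _) (hci _ _)).symm
  have h4 : ∫ α in (0 : ℝ)..(1 / 4), |α| * rr L α = ∫ x in (0 : ℝ)..(L / 4), x * KK 1 x := by
    have h5 : ∫ α in (0 : ℝ)..(1 / 4), |α| * rr L α =
        L * ∫ α in (0 : ℝ)..(1 / 4), (L * α) * KK 1 (L * α) := by
      rw [← intervalIntegral.integral_const_mul]
      apply intervalIntegral.integral_congr
      intro α hα
      rw [Set.uIcc_of_le (by norm_num)] at hα
      show |α| * rr L α = L * (L * α * KK 1 (L * α))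
      unfold rr GG
      rw [ch_one (by rw [abs_of_nonneg hα.1]; exact hα.2), abs_of_nonneg hα.1]
      ring
    rw [h5, intervalIntegral.mul_integral_comp_mul_left (f := fun x => x * KK 1 x), mul_zero]
    congr 1
    ring
  have h5 : |∫ α in (1 / 4 : ℝ)..(1 / 2), |α| * rr L α| ≤ 1 := by
    have h6 := intervalIntegral.norm_integral_le_of_norm_le_const (a := (1 / 4 : ℝ)) (b := 1 / 2)
      (f := fun α : ℝ => |α| * rr L α) (C := 4) (by
        intro x hx
        rw [Set.uIoc_of_le (by norm_num)] at hx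
        have hx0 : 0 < x := by linarith [hx.1]
        unfold rr
        rw [Real.norm_eq_abs, abs_mul, abs_abs, abs_of_pos hx0,
          abs_of_nonneg (mul_nonneg (GG_nonneg L x) (ch_nonneg x))]
        have g1 := GG_sq L x
        have g2 := GG_nonneg L x
        have g3 := ch_le_one x
        have g4 : GG L x * ch x ≤ GG L x := mul_le_of_le_one_right g2 g3
        have g5 : x * GG L x ≤ 4 := by
          have : x * (x * GG L x) ≤ 1 := by
            calc x * (x * GG L x) = x ^ 2 * GG L x := by ring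
              _ ≤ 1 := g1
          have g6 : 0 ≤ x * GG L x := by positivity
          nlinarith [hx.1]
        exact (mul_le_mul_of_nonneg_left g4 hx0.le).trans g5)
    rw [Real.norm_eq_abs] at h6
    refine h6.trans (le_of_eq ?_)
    rw [show (1 / 2 - 1 / 4 : ℝ) = 1 / 4 by norm_num, abs_of_pos (by norm_num)]
    norm_num
  have h6 := int_xKK hL
  unfold mo
  rw [hr0, h1, h2, h3, h4]
  set A := ∫ x in (0 : ℝ)..(L / 4), x * KK 1 x with hA
  set B := ∫ α in (1 / 4 : ℝ)..(1 / 2), |α| * rr L α with hB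
  have e : L ^ 2 + 2 * (A + B) - (L ^ 2 + 1 / Real.pi ^ 2 * Real.log L) =
      2 * (A - 1 / (2 * Real.pi ^ 2) * Real.log L) + 2 * B := by
    field_simp
    ring
  rw [e]
  refine (abs_add_le _ _).trans ?_
  rw [abs_mul, abs_mul, abs_of_pos (by norm_num : (0 : ℝ) < 2)]
  linarith

end Pool.Agent.Q276.NV
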