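import Pool.Agent.Q276.NV.A3
import Pool.Agent.Q276.UR.N2

/-! Sums of triangles over pairs of points. -/

set_option autoImplicit false

open Filter Topology Set MeasureTheory FourierTransform
open scoped ContDiff

namespace Pool.Agent.Q276.NV

open H177.Lat (KK tri KK_zero KK_nonneg KK_le KK_sq KK_ne tri_cont tri_even)
open Pool.Agent.Q276.LR (four_tri tri_int TS TS_cont TS_sq TS_le cauchy_sum)
open Pool.Agent.Q276.UR (four_even KK1_int fin_conv)
open Pool.Agent.Y750.OM (bl)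
open SG (ord NZ zmult ZS)
open Pool.Agent.Y744 (Zt mz mem_Zt mz_nonneg QS Q2)
open H177.Lat (yy)

lemma int_TS {g : ℝ → ℝ} (hg : Integrable g) (I : Finset ℕ) (y : ℕ → ℝ) :
    Integrable (fun α => g α * ‖TS I y α‖ ^ 2) ∧
    ∫ α, g α * ‖TS I y α‖ ^ 2 = ∑ n ∈ I, ∑ m ∈ I, bl g (y n - y m) := by
  have hint : ∀ u : ℝ, Integrable (fun α => g α * Real.cos (2 * Real.pi * α * u)) := fun u =>
    hg.mul_bdd (c := 1) (by fun_prop) (Eventually.of_forall fun α => by
      rw [Real.norm_eq_abs]; exact Real.abs_cos_le_one _)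
  simp_rw [TS_sq, Finset.mul_sum]
  refine ⟨integrable_finsetSum _ fun n _ => integrable_finsetSum _ fun m _ => hint _, ?_⟩
  rw [integral_finsetSum _ fun n _ => integrable_finsetSum _ fun m _ => hint _]
  refine Finset.sum_congr rfl fun n _ => ?_
  rw [integral_finsetSum _ fun m _ => hint _]
  rfl

/-- inversion for the Fejer kernel -/
lemma KK_inv (u : ℝ) : ∫ x, KK 1 x * Real.cos (2 * Real.pi * x * u) = tri 1 u := by
  have hi := KK1_int.1
  have h1 : Integrable (fun u : ℝ => ((tri 1 u : ℝ) : ℂ)) := (tri_int one_pos).ofReal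
  have hF : 𝓕 (fun u : ℝ => ((tri 1 u : ℝ) : ℂ)) = fun x => ((KK 1 x : ℝ) : ℂ) :=
    funext fun x => four_tri one_pos x
  have h2 : Integrable (𝓕 (fun u : ℝ => ((tri 1 u : ℝ) : ℂ))) := by
    rw [hF]; exact hi.ofReal
  have h3 : Continuous (fun u : ℝ => ((tri 1 u : ℝ) : ℂ)) :=
    Complex.continuous_ofReal.comp (tri_cont 1)
  have h4 := congrFun (h3.fourierInv_fourier_eq h1 h2) u
  have hKe : ∀ x, KK 1 (-x) = KK 1 x := by
    intro x
    unfold KK
    congr 1
    funext u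
    rw [mul_neg, Real.cos_neg]
  rw [hF, Real.fourierInv_eq_fourier_neg, four_even hi hKe] at h4
  have h5 : ∫ x, KK 1 x * Real.cos (2 * Real.pi * x * u) =
      ∫ x, KK 1 x * Real.cos (2 * Real.pi * x * -u) := by
    congr 1
    funext x
    rw [mul_neg, Real.cos_neg]
  rw [h5]
  exact_mod_cast h4

lemma GG_int {L : ℝ} (hL : 0 < L) : Integrable (GG L) := by
  unfold GG
  exact (KK1_int.1.comp_mul_left' hL.ne').const_mul _

/-- the transform of the kernel -/
lemma bl_GG {L : ℝ} (hL : 0 < L) (u : ℝ) : bl (GG L) u = max 0 (L - |u|) := by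
  unfold bl GG
  have h1 : ∀ α : ℝ, L ^ 2 * KK 1 (L * α) * Real.cos (2 * Real.pi * α * u) =
      L ^ 2 * (fun x : ℝ => KK 1 x * Real.cos (2 * Real.pi * x * (u / L))) (L * α) := by
    intro α
    have : 2 * Real.pi * (L * α) * (u / L) = 2 * Real.pi * α * u := by field_simp
    simp only [this]
    ring
  simp_rw [h1]
  rw [integral_const_mul, Measure.integral_comp_mul_left
    (fun x : ℝ => KK 1 x * Real.cos (2 * Real.pi * x * (u / L))), KK_inv, smul_eq_mul,
    abs_of_pos (by positivity : 0 < L⁻¹)]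
  unfold tri
  rw [div_one, abs_div, abs_of_pos hL]
  have h2 : L ^ 2 * (L⁻¹ * max 0 (1 - |u| / L)) = L * max 0 (1 - |u| / L) := by
    field_simp
  rw [h2, mul_max_of_nonneg _ _ hL.le, mul_zero]
  congr 1
  field_simp

/-- **the triangle sum and the smooth sum** -/
theorem tent_split {L : ℝ} (hL : 0 < L) (I : Finset ℕ) (y : ℕ → ℝ) :
    ∑ n ∈ I, ∑ m ∈ I, bl (rr L) (y n - y m) ≤ ∑ n ∈ I, ∑ m ∈ I, max 0 (L - |y n - y m|) ∧
    ∑ n ∈ I, ∑ m ∈ I, max 0 (L - |y n - y m|) ≤ ∑ n ∈ I, ∑ m ∈ I, bl (rr L) (y n - y m) +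
      17 * (Real.pi * ∑ n ∈ I, ∑ m ∈ I, Real.exp (-(2 * Real.pi) * |y n - y m|)) := by
  have hr : Integrable (rr L) :=
    (rr_smooth L).continuous.integrable_of_hasCompactSupport (rr_compact L)
  obtain ⟨i1, e1⟩ := int_TS (GG_int hL) I y
  obtain ⟨i2, e2⟩ := int_TS hr I y
  obtain ⟨i3, e3⟩ := cauchy_sum I y
  simp_rw [bl_GG hL] at e1
  rw [← e1, ← e2]
  have hle : ∀ α, rr L α ≤ GG L α := fun α => by
    unfold rr
    exact mul_le_of_le_one_right (GG_nonneg L α) (ch_le_one α)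
  have hle2 : ∀ α, GG L α ≤ rr L α + 17 * (1 / (1 + α ^ 2)) := by
    intro α
    rcases le_or_gt |α| (1 / 4) with h | h
    · unfold rr
      rw [ch_one h, mul_one]
      have : (0 : ℝ) ≤ 17 * (1 / (1 + α ^ 2)) := by positivity
      linarith
    · have g0 := mul_nonneg (GG_nonneg L α) (ch_nonneg α)
      have g1 := GG_sq L α
      have g4 : 1 / 16 ≤ α ^ 2 := by
        rw [← sq_abs]
        nlinarith [abs_nonneg α]
      have g2 : GG L α ≤ 17 * (1 / (1 + α ^ 2)) := by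
        rw [mul_one_div, le_div_iff₀ (by positivity)]
        have g3 := GG_nonneg L α
        nlinarith
      unfold rr
      linarith
  constructor
  · apply integral_mono i2 i1
    intro α
    exact mul_le_mul_of_nonneg_right (hle α) (by positivity)
  · have h1 : ∫ α, GG L α * ‖TS I y α‖ ^ 2 ≤
        ∫ α, (rr L α * ‖TS I y α‖ ^ 2 + 17 * (1 / (1 + α ^ 2) * ‖TS I y α‖ ^ 2)) := by
      apply integral_mono i1 (i2.add (i3.const_mul 17))
      intro α
      have := mul_le_mul_of_nonneg_right (hle2 α) (by positivity : 0 ≤ ‖TS I y α‖ ^ 2)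
      show GG L α * ‖TS I y α‖ ^ 2 ≤
        rr L α * ‖TS I y α‖ ^ 2 + 17 * (1 / (1 + α ^ 2) * ‖TS I y α‖ ^ 2)
      linarith
    rw [integral_add i2 (i3.const_mul 17), integral_const_mul] at h1
    linarith

/-! ### Sums over the zeros as sums over the indices -/

lemma Zt_eq (T : ℝ) : Zt T = (SG.ZS_finite T).toFinset := by
  ext s
  rw [mem_Zt, Set.Finite.mem_toFinset]
  constructor
  · rintro ⟨a1, a2, a3, a4, a5⟩
    exact ⟨a5, a1, a2, a3, a4⟩
  · rintro ⟨a5, a1, a2, a3, a4⟩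
    exact ⟨a1, a2, a3, a4, a5⟩

lemma NZ_Zt (T : ℝ) : NZ T = ∑ s ∈ Zt T, zmult s := by
  rw [Zt_eq]
  exact SG.NZ_eq T

theorem sum_conv0 (T : ℝ) (f : ℝ → ℝ) :
    ∑ s ∈ Zt T, mz s * f s.im = ∑ n ∈ Finset.Ioc 0 (NZ T), f (ord n) := by
  classical
  have key : ∀ x : ℝ, ∑ s ∈ (Zt T).filter (fun s => s.im ≤ x), zmult s =
      ((Finset.Ioc 0 (NZ T)).filter (fun n => ord n ≤ x)).card := by
    intro x
    have e1 : (Zt T).filter (fun s => s.im ≤ x) = Zt (min x T) := by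
      ext s
      rw [Finset.mem_filter, mem_Zt, mem_Zt]
      constructor
      · rintro ⟨⟨s1, s2, s3, s4, s5⟩, s6⟩
        exact ⟨s1, s2, s3, le_min s6 s4, s5⟩
      · rintro ⟨s1, s2, s3, s4, s5⟩
        exact ⟨⟨s1, s2, s3, s4.trans (min_le_right _ _), s5⟩, s4.trans (min_le_left _ _)⟩
    have e2 : (Finset.Ioc 0 (NZ T)).filter (fun n => ord n ≤ x) = Finset.Ioc 0 (NZ (min x T)) := by
      ext n
      rw [Finset.mem_filter, Finset.mem_Ioc, Finset.mem_Ioc]
      constructor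
      · rintro ⟨⟨n1, n2⟩, n3⟩
        have h1 : ord n ≤ T := (SG.ord_le_iff (by omega : 1 ≤ n) T).mpr n2
        exact ⟨n1, (SG.ord_le_iff (by omega : 1 ≤ n) _).mp (le_min n3 h1)⟩
      · rintro ⟨n1, n2⟩
        have h1 := (SG.ord_le_iff (by omega : 1 ≤ n) (min x T)).mpr n2
        exact ⟨⟨n1, (SG.ord_le_iff (by omega : 1 ≤ n) T).mp (h1.trans (min_le_right _ _))⟩,
          h1.trans (min_le_left _ _)⟩
    rw [e1, e2, Nat.card_Ioc, ← NZ_Zt]
    omega
  exact fin_conv (Zt T) zmult (fun s => s.im) (Finset.Ioc 0 (NZ T)) ord key f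

theorem double_conv0 (T : ℝ) (f : ℝ → ℝ → ℝ) :
    ∑ s ∈ Zt T, ∑ s' ∈ Zt T, mz s * mz s' * f s.im s'.im =
      ∑ n ∈ Finset.Ioc 0 (NZ T), ∑ n' ∈ Finset.Ioc 0 (NZ T), f (ord n) (ord n') := by
  have h1 : ∀ s ∈ Zt T, ∑ s' ∈ Zt T, mz s * mz s' * f s.im s'.im =
      mz s * ∑ n' ∈ Finset.Ioc 0 (NZ T), f s.im (ord n') := by
    intro s _
    rw [← sum_conv0 T (fun x => f s.im x), Finset.mul_sum]
    refine Finset.sum_congr rfl fun s' _ => ?_
    ring
  rw [Finset.sum_congr rfl h1]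
  exact sum_conv0 T (fun x => ∑ n' ∈ Finset.Ioc 0 (NZ T), f x (ord n'))

/-- the pair sums up to height `T` in terms of the ordinates -/
lemma Q2_conv (f : ℝ → ℝ) (T : ℝ) : Q2 f T (Real.log T) =
    ∑ n ∈ Finset.Ioc 0 (NZ T), ∑ m ∈ Finset.Ioc 0 (NZ T), f (yy T n - yy T m) := by
  unfold Q2 QS
  rw [double_conv0 T (fun x x' => f ((x - x') * Real.log T / (2 * Real.pi)))]
  refine Finset.sum_congr rfl fun n _ => Finset.sum_congr rfl fun m _ => ?_
  congr 1
  unfold yy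
  ring

end Pool.Agent.Q276.NV
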