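import Pool.Agent.Q276.NV.B1

/-! Sums of triangles over pairs of ordinates. -/

set_option autoImplicit false

open Filter Topology Set MeasureTheory

namespace Pool.Agent.Q276.NV

open Pool.Agent.Y750.OM (bl)
open SG (ord NZ zmult ZS)
open Pool.Agent.Y744 (Zt mz mem_Zt mz_nonneg QS Q2 QS_abs_bound QS_le_abs Xf Xf_pos)
open TH803TW (PP1)
open H177.Lat (yy)
open Q241.OP (PPB OT mo BlkE pair_up)

/-- the triangle sum -/
noncomputable def TT (T L : ℝ) : ℝ :=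
  ∑ n ∈ Finset.Ioc 0 (NZ T), ∑ m ∈ Finset.Ioc 0 (NZ T), max 0 (L - |yy T n - yy T m|)

lemma exp_dec (y : ℝ) : |Real.exp (-(2 * Real.pi) * |y|)| ≤ 1 / (1 + y ^ 2) := by
  have hpi := Real.pi_gt_three
  rw [abs_of_pos (Real.exp_pos _), le_div_iff₀ (by positivity), ← sq_abs y]
  have h0 := abs_nonneg y
  set t := |y| with ht
  have h1 : 1 + t ^ 2 ≤ Real.exp (2 * Real.pi * t) := by
    have h2 := Real.quadratic_le_exp_of_nonneg (by positivity : 0 ≤ 2 * Real.pi * t)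
    have h3 : t ^ 2 ≤ (2 * Real.pi * t) ^ 2 / 2 := by
      have : (2 * Real.pi * t) ^ 2 = 4 * Real.pi ^ 2 * t ^ 2 := by ring
      rw [this]
      have : 1 ≤ Real.pi ^ 2 := by nlinarith
      nlinarith [sq_nonneg t]
    have h4 : 0 ≤ 2 * Real.pi * t := by positivity
    linarith
  calc Real.exp (-(2 * Real.pi) * t) * (1 + t ^ 2) ≤
      Real.exp (-(2 * Real.pi) * t) * Real.exp (2 * Real.pi * t) :=
        mul_le_mul_of_nonneg_left h1 (Real.exp_pos _).le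
    _ = 1 := by rw [← Real.exp_add]; simp

lemma exp_sum : ∃ C T0 : ℝ, 0 ≤ C ∧ 10 ≤ T0 ∧ ∀ T : ℝ, T0 ≤ T →
    ∑ n ∈ Finset.Ioc 0 (NZ T), ∑ m ∈ Finset.Ioc 0 (NZ T),
      Real.exp (-(2 * Real.pi) * |yy T n - yy T m|) ≤ C * Xf T := by
  obtain ⟨C, B0, V0, hC, hB0, hV0, hblk, hloc⟩ := PPB
  have hpi := Real.pi_pos
  refine ⟨3200 * (C + 1) * (2 * Real.pi), max V0 B0, by positivity,
    (by linarith : (10 : ℝ) ≤ V0).trans (le_max_left _ _), fun T hT => ?_⟩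
  have h1 : V0 ≤ T := (le_max_left _ _).trans hT
  have h2 : B0 ≤ T := (le_max_right _ _).trans hT
  have hL1 : 1 ≤ Real.log T := by
    rw [Real.le_log_iff_exp_le (by linarith)]
    linarith [Real.exp_one_lt_d9]
  have h3 := hloc T h1 (Real.log T) le_rfl
  rw [← Q2_conv (fun u => Real.exp (-(2 * Real.pi) * |u|)) T]
  have h4 : Q2 (fun u => Real.exp (-(2 * Real.pi) * |u|)) T (Real.log T) ≤
      1600 * 1 * (1 * PP1 (Zt T) mz (fun s => s.im) (Real.log T) +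
        1 / 1 * PP1 (Zt T) mz (fun s => s.im) (Real.log T)) := by
    refine (le_abs_self _).trans ((QS_le_abs _ _ mz_nonneg _ _).trans ?_)
    exact QS_abs_bound (x := fun s : ℂ => s.im) (Zt T) (Zt T) mz_nonneg exp_dec (by linarith)
      one_pos
  have h5 : B0 ≤ T * Real.log T := by nlinarith
  have e : 3200 * (C + 1) * (2 * Real.pi) * Xf T = 3200 * (C + 1) * (T * Real.log T) := by
    unfold Xf
    field_simp
  rw [e]
  have h6 : 1600 * 1 * (1 * PP1 (Zt T) mz (fun s => s.im) (Real.log T) +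
        1 / 1 * PP1 (Zt T) mz (fun s => s.im) (Real.log T)) =
      3200 * PP1 (Zt T) mz (fun s => s.im) (Real.log T) := by ring
  rw [h6] at h4
  linarith

/-- **the triangle sums** -/
theorem TT_lim : ∃ C : ℝ, 0 ≤ C ∧ ∀ L : ℝ, 1 ≤ L → ∀ᶠ T : ℝ in atTop,
    |TT T L / Xf T - (L ^ 2 + 1 / Real.pi ^ 2 * Real.log L)| ≤ C := by
  obtain ⟨E0, hE0, hE⟩ := BlkE_rr
  obtain ⟨C, T0, hC, hT0, hexp⟩ := exp_sum
  have hpi := Real.pi_pos
  refine ⟨E0 + 1 + 3 + 17 * (Real.pi * C), by positivity, fun L hL => ?_⟩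
  filter_upwards [pair_up (OT_rr L) hE0 (hE L) 1 one_pos, eventually_ge_atTop T0] with T h1 hT
  have hX : 0 < Xf T := Xf_pos (by linarith)
  rw [Q2_conv] at h1
  obtain ⟨s1, s2⟩ := tent_split (by linarith : 0 < L) (Finset.Ioc 0 (NZ T)) (yy T)
  have h2 := hexp T hT
  have h3 := mo_rr hL
  change _ ≤ TT T L at s1
  change TT T L ≤ _ at s2
  set R := ∑ n ∈ Finset.Ioc 0 (NZ T), ∑ m ∈ Finset.Ioc 0 (NZ T),
    bl (rr L) (yy T n - yy T m) with hR
  set E := ∑ n ∈ Finset.Ioc 0 (NZ T), ∑ m ∈ Finset.Ioc 0 (NZ T),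
      Real.exp (-(2 * Real.pi) * |yy T n - yy T m|) with hEdef
  have g1 : R / Xf T ≤ TT T L / Xf T := div_le_div_of_nonneg_right s1 hX.le
  have g2 : TT T L / Xf T ≤ R / Xf T + 17 * (Real.pi * C) := by
    rw [div_add' _ _ _ hX.ne']
    apply div_le_div_of_nonneg_right _ hX.le
    have g3 : 17 * (Real.pi * E) ≤ 17 * (Real.pi * (C * Xf T)) := by gcongr
    linarith
  rw [abs_le] at h1 h3 ⊢
  constructor <;> nlinarith [h1.1, h1.2, h3.1, h3.2, mul_nonneg hpi.le hC]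

end Pool.Agent.Q276.NV
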