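import Pool.Agent.Q276.NV.B2
import Pool.Agent.Q241.OP.Fin

/-! The integrated pair count. -/

set_option autoImplicit false

open Filter Topology Set MeasureTheory

namespace Pool.Agent.Q276.NV

open H177.Lat (KK tri KK_zero KK_nonneg KK_le KK_sq KK_ne tri_cont tri_even)
open Pool.Agent.Q276.UR (KK1_int)
open SG (ord NZ)
open Pool.Agent.Y744 (Zt mz mem_Zt mz_nonneg Xf Xf_pos dd PC Aa gp gd gd_cont gp_cont gp_deriv
  gp_zero)
open H177.Lat (yy)
open Q241.OP (Nstar ZZ P P_eq low_zero Nstar_eq Dn_eq Dn)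

lemma PC_conv (T : ℝ) (S : Set ℝ) : PC T S = ∑ n ∈ Finset.Ioc 0 (NZ T),
    ∑ m ∈ Finset.Ioc 0 (NZ T), S.indicator (fun _ => (1 : ℝ)) (yy T n - yy T m) := by
  unfold PC dd
  rw [double_conv0 T (fun x x' => S.indicator (fun _ => (1 : ℝ))
    ((x - x') * Real.log T / (2 * Real.pi)))]
  refine Finset.sum_congr rfl fun n _ => Finset.sum_congr rfl fun m _ => ?_
  congr 1
  unfold yy
  ring

lemma int_ind {L : ℝ} (hL : 0 ≤ L) (d : ℝ) :
    IntervalIntegrable (fun y : ℝ => {x : ℝ | |x| ≤ y}.indicator (fun _ => (1 : ℝ)) d) volume 0 L ∧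
    ∫ y in (0 : ℝ)..L, {x : ℝ | |x| ≤ y}.indicator (fun _ => (1 : ℝ)) d = max 0 (L - |d|) := by
  have h1 : (fun y : ℝ => {x : ℝ | |x| ≤ y}.indicator (fun _ => (1 : ℝ)) d) =
      (Ici |d|).indicator (fun _ => (1 : ℝ)) := by
    funext y
    by_cases h : |d| ≤ y
    · rw [Set.indicator_of_mem (show d ∈ {x : ℝ | |x| ≤ y} from h),
        Set.indicator_of_mem (show y ∈ Ici |d| from h)]
    · rw [Set.indicator_of_notMem (show d ∉ {x : ℝ | |x| ≤ y} from h),
        Set.indicator_of_notMem (show y ∉ Ici |d| from h)]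
  rw [h1]
  refine ⟨?_, ?_⟩
  · rw [intervalIntegrable_iff]
    exact (integrableOn_const (by simp)).indicator measurableSet_Ici
  rw [intervalIntegral.integral_of_le hL, setIntegral_indicator measurableSet_Ici, setIntegral_const,
    smul_eq_mul, mul_one]
  have h2 : (Ioc 0 L ∩ Ici |d| : Set ℝ) =ᵐ[volume] (Ioc 0 L ∩ Ioi |d| : Set ℝ) :=
    (ae_eq_refl _).inter Ioi_ae_eq_Ici.symm
  rw [measureReal_congr h2, Set.Ioc_inter_Ioi, max_eq_right (abs_nonneg d),
    Measure.real, Real.volume_Ioc, ENNReal.toReal_ofReal', max_comm]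

/-- the integrated pair count as a triangle sum -/
lemma Aa_int {T L : ℝ} (hL : 0 ≤ L) :
    IntervalIntegrable (Aa T) volume 0 L ∧ ∫ y in (0 : ℝ)..L, Aa T y = TT T L / Xf T := by
  have e : Aa T = fun y => (Xf T)⁻¹ * ∑ n ∈ Finset.Ioc 0 (NZ T),
    ∑ m ∈ Finset.Ioc 0 (NZ T), {x : ℝ | |x| ≤ y}.indicator (fun _ => (1 : ℝ))
      (yy T n - yy T m) := by
    funext y
    unfold Aa
    rw [PC_conv]
  have hi : ∀ n m : ℕ, IntervalIntegrable (fun y : ℝ =>
      {x : ℝ | |x| ≤ y}.indicator (fun _ => (1 : ℝ)) (yy T n - yy T m)) volume 0 L :=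
    fun n m => (int_ind hL _).1
  have hi2 : ∀ n : ℕ, IntervalIntegrable (fun y : ℝ => ∑ m ∈ Finset.Ioc 0 (NZ T),
      {x : ℝ | |x| ≤ y}.indicator (fun _ => (1 : ℝ)) (yy T n - yy T m)) volume 0 L := by
    intro n
    have := IntervalIntegrable.sum (Finset.Ioc 0 (NZ T)) fun m _ => hi n m
    refine this.congr (fun y _ => ?_)
    simp [Finset.sum_apply]
  have hi3 : IntervalIntegrable (fun y : ℝ => ∑ n ∈ Finset.Ioc 0 (NZ T),
      ∑ m ∈ Finset.Ioc 0 (NZ T),
      {x : ℝ | |x| ≤ y}.indicator (fun _ => (1 : ℝ)) (yy T n - yy T m)) volume 0 L := by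
    have := IntervalIntegrable.sum (Finset.Ioc 0 (NZ T)) fun n _ => hi2 n
    refine this.congr (fun y _ => ?_)
    simp [Finset.sum_apply]
  rw [e]
  refine ⟨hi3.const_mul _, ?_⟩
  rw [intervalIntegral.integral_const_mul, intervalIntegral.integral_finsetSum fun n _ => hi2 n,
    inv_mul_eq_div]
  congr 1
  unfold TT
  refine Finset.sum_congr rfl fun n _ => ?_
  rw [intervalIntegral.integral_finsetSum fun m _ => hi n m]
  exact Finset.sum_congr rfl fun m _ => (int_ind hL _).2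

lemma gd_eq (x : ℝ) : gd x = 1 - KK 1 x := by
  unfold gd
  have hpi := Real.pi_pos
  rcases eq_or_ne x 0 with h | h
  · rw [h, mul_zero, Real.sinc_zero, KK_zero one_pos]
    norm_num
  · rw [Real.sinc_of_ne_zero (by positivity), KK_ne one_pos h, one_mul, one_mul]

lemma half_KK {L : ℝ} (hL : 0 < L) : |(∫ x in (0 : ℝ)..L, KK 1 x) - 1 / 2| ≤ 1 / L := by
  obtain ⟨hi, h1⟩ := KK1_int
  have hKe : ∀ x, KK 1 (-x) = KK 1 x := by
    intro x
    unfold KK
    congr 1
    funext u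
    rw [mul_neg, Real.cos_neg]
  have h2 : ∫ x in Ioi (0 : ℝ), KK 1 x = 1 / 2 := by
    have h3 := integral_comp_abs (f := KK 1)
    have h4 : ∀ x : ℝ, KK 1 |x| = KK 1 x := by
      intro x
      rcases abs_choice x with h | h
      · rw [h]
      · rw [h, hKe]
    simp_rw [h4] at h3
    rw [h1] at h3
    linarith
  have h3 := intervalIntegral.integral_interval_add_Ioi (f := KK 1) (a := 0) (b := L)
    hi.integrableOn hi.integrableOn
  rw [h2] at h3
  have h4 : 0 ≤ ∫ x in Ioi L, KK 1 x := setIntegral_nonneg measurableSet_Ioi fun x _ =>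
    KK_nonneg one_pos x
  have h5 : ∫ x in Ioi L, KK 1 x ≤ ∫ x in Ioi L, x ^ (-2 : ℝ) := by
    apply setIntegral_mono_on hi.integrableOn
      (integrableOn_Ioi_rpow_of_lt (by norm_num) hL) measurableSet_Ioi
    intro x hx
    have hx0 : 0 < x := hL.trans hx
    have h6 := KK_sq one_pos x
    rw [Real.rpow_neg hx0.le, Real.rpow_two, ← one_div, le_div_iff₀ (by positivity)]
    simpa using h6
  rw [integral_Ioi_rpow_of_lt (by norm_num) hL] at h5
  have h6 : -L ^ ((-2 : ℝ) + 1) / ((-2 : ℝ) + 1) = 1 / L := by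
    rw [show (-2 : ℝ) + 1 = -1 by norm_num, Real.rpow_neg_one]
    ring
  rw [h6] at h5
  rw [abs_le]
  constructor <;> linarith [show 0 < 1 / L by positivity]

/-- the integral of the prediction -/
lemma pred_int {L : ℝ} (hL : 1 ≤ L) : |(∫ a in (0 : ℝ)..L, gp a) -
    (L ^ 2 / 2 - L / 2 + 1 / (2 * Real.pi ^ 2) * Real.log L)| ≤ 2 := by
  have hpi := Real.pi_gt_three
  have hd : ∀ a ∈ Set.uIcc (0 : ℝ) L, HasDerivAt (fun a => (L - a) * gp a)
      ((L - a) * gd a - gp a) a := by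
    intro a _
    have h1 : HasDerivAt (fun a : ℝ => L - a) (-1) a := by
      simpa using (hasDerivAt_id a).const_sub L
    refine (h1.mul (gp_deriv a)).congr_deriv ?_
    ring
  have c1 : Continuous fun a : ℝ => (L - a) * gd a := by
    have := gd_cont
    fun_prop
  have h1 := intervalIntegral.integral_eq_sub_of_hasDerivAt hd
    ((c1.intervalIntegrable _ _).sub (gp_cont.intervalIntegrable _ _))
  rw [intervalIntegral.integral_sub (c1.intervalIntegrable _ _) (gp_cont.intervalIntegrable _ _),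
    gp_zero] at h1
  have hK := KK1_cont
  have h2 : ∫ a in (0 : ℝ)..L, (L - a) * gd a =
      L ^ 2 / 2 - L * (∫ x in (0 : ℝ)..L, KK 1 x) + ∫ x in (0 : ℝ)..L, x * KK 1 x := by
    have h3 : ∀ a ∈ Set.uIcc (0 : ℝ) L, (L - a) * gd a =
        ((L - a) - L * KK 1 a) + a * KK 1 a := by
      intro a _
      rw [gd_eq]; ring
    rw [intervalIntegral.integral_congr h3, intervalIntegral.integral_add
      (Continuous.intervalIntegrable (by fun_prop) _ _)
      (Continuous.intervalIntegrable (by fun_prop) _ _), intervalIntegral.integral_sub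
      (Continuous.intervalIntegrable (by fun_prop) _ _)
      (Continuous.intervalIntegrable (by fun_prop) _ _), intervalIntegral.integral_const_mul]
    congr 2
    rw [intervalIntegral.integral_sub (by simp) (by simp), integral_id,
      intervalIntegral.integral_const, smul_eq_mul]
    ring
  have h3 := half_KK (by linarith : 0 < L)
  have h4 := int_xKK (L := 4 * L) (by linarith)
  have e4 : 4 * L / 4 = L := by ring
  rw [e4, Real.log_mul (by norm_num) (by linarith)] at h4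
  have hl4 : Real.log 4 ≤ 2 := by
    have := Real.log_le_sub_one_of_pos (show (0 : ℝ) < 2 by norm_num)
    rw [show (4 : ℝ) = 2 ^ 2 by norm_num, Real.log_pow]
    push_cast
    linarith
  have hl40 : 0 ≤ Real.log 4 := Real.log_nonneg (by norm_num)
  have h5 : |1 / (2 * Real.pi ^ 2) * Real.log 4| ≤ 1 / 2 := by
    rw [abs_of_nonneg (by positivity), one_div_mul_eq_div, div_le_div_iff₀ (by positivity)
      (by norm_num)]
    nlinarith
  set A := ∫ x in (0 : ℝ)..L, KK 1 x with hA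
  set B := ∫ x in (0 : ℝ)..L, x * KK 1 x with hB
  have h6 : |L * (A - 1 / 2)| ≤ 1 := by
    rw [abs_mul, abs_of_pos (by linarith : 0 < L)]
    calc L * |A - 1 / 2| ≤ L * (1 / L) := mul_le_mul_of_nonneg_left h3 (by linarith)
      _ = 1 := mul_one_div_cancel (by linarith)
  have e : (∫ a in (0 : ℝ)..L, gp a) -
      (L ^ 2 / 2 - L / 2 + 1 / (2 * Real.pi ^ 2) * Real.log L) =
      -(L * (A - 1 / 2)) + ((B - 1 / (2 * Real.pi ^ 2) * (Real.log 4 + Real.log L)) +
        1 / (2 * Real.pi ^ 2) * Real.log 4) := by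
    have : ∫ a in (0 : ℝ)..L, gp a = ∫ a in (0 : ℝ)..L, (L - a) * gd a := by
      simp only [sub_self, zero_mul, mul_zero, sub_zero] at h1
      linarith
    rw [this, h2]
    ring
  rw [e]
  refine (abs_add_le _ _).trans ?_
  rw [abs_neg]
  have h7 := abs_add_le (B - 1 / (2 * Real.pi ^ 2) * (Real.log 4 + Real.log L))
    (1 / (2 * Real.pi ^ 2) * Real.log 4)
  linarith

/-- the number of ordered pairs of zeros with the same ordinate in `(0, T]` -/
noncomputable def Neq (T : ℝ) : ℕ :=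
  ∑ᶠ p ∈ {p : ℂ × ℂ | p.1 ∈ ZZ ∧ p.2 ∈ ZZ ∧ 0 < p.1.im ∧ p.1.im ≤ T ∧ p.2.im = p.1.im},
    Q241.OP.zmult p.1 * Q241.OP.zmult p.2

lemma Neq_eq {T : ℝ} (hT : 1 < T) : (Neq T : ℝ) = PC T {x | |x| ≤ 0} := by
  classical
  have hlog : 0 < Real.log T := Real.log_pos hT
  have hpi := Real.pi_pos
  have e : {p : ℂ × ℂ | p.1 ∈ ZZ ∧ p.2 ∈ ZZ ∧ 0 < p.1.im ∧ p.1.im ≤ T ∧ p.2.im = p.1.im} =
      ↑((Zt T ×ˢ Zt T).filter (fun p => dd T p.1 p.2 ∈ {x : ℝ | |x| ≤ 0})) := by
    ext p
    rw [Finset.mem_coe, Finset.mem_filter, Finset.mem_product, mem_Zt, mem_Zt]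
    have e1 : dd T p.1 p.2 ∈ {x : ℝ | |x| ≤ 0} ↔ p.2.im = p.1.im := by
      show |dd T p.1 p.2| ≤ 0 ↔ _
      rw [abs_nonpos_iff]
      unfold dd
      constructor
      · intro h
        rw [div_eq_zero_iff, mul_eq_zero] at h
        rcases h with (h | h) | h
        · linarith
        · exact absurd h hlog.ne'
        · exact absurd h (by positivity)
      · intro h
        rw [h, sub_self, zero_mul, zero_div]
    rw [e1]
    constructor
    · rintro ⟨h1, h2, h3, h4, h5⟩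
      exact ⟨⟨⟨h1.2.1, h1.2.2, h3, h4, h1.1⟩, ⟨h2.2.1, h2.2.2, by rw [h5]; exact h3,
        by rw [h5]; exact h4, h2.1⟩⟩, h5⟩
    · rintro ⟨⟨⟨h1, h2, h3, h4, h5⟩, ⟨k1, k2, k3, k4, k5⟩⟩, h6⟩
      exact ⟨⟨h5, h1, h2⟩, ⟨k5, k1, k2⟩, h3, h4, h6⟩
  unfold Neq
  rw [e, finsum_mem_coe_finset]
  push_cast
  rw [Finset.sum_filter, Finset.sum_product]
  unfold PC
  refine Finset.sum_congr rfl fun s _ => Finset.sum_congr rfl fun s' _ => ?_
  by_cases h : dd T s s' ∈ {x : ℝ | |x| ≤ 0}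
  · rw [if_pos h, Set.indicator_of_mem h, mul_one]
    rfl
  · rw [if_neg h, Set.indicator_of_notMem h, mul_zero]

/-- **the integrated pair count** -/
theorem Nstar_lim : ∃ C : ℝ, 0 ≤ C ∧ ∀ L : ℝ, 1 ≤ L → ∀ᶠ T : ℝ in atTop,
    |(∫ a in (0 : ℝ)..L, ((Nstar T a : ℝ) / (T * Real.log T) - P a)) +
      L / (4 * Real.pi) * ((Neq T : ℝ) / (T * Real.log T / (2 * Real.pi)) - 1)| ≤ C := by
  obtain ⟨C, hC, h⟩ := TT_lim
  have hpi := Real.pi_pos
  refine ⟨1 / (4 * Real.pi) * C + 1 / (2 * Real.pi) * 2, by positivity, fun L hL => ?_⟩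
  obtain ⟨m, hm0, hm⟩ := low_zero
  have h1 : Tendsto (fun T : ℝ => 2 * Real.pi * L / Real.log T) atTop (𝓝 0) :=
    Tendsto.div_atTop tendsto_const_nhds Real.tendsto_log_atTop
  filter_upwards [(tendsto_order.1 h1).2 m hm0, eventually_gt_atTop (1 : ℝ), h L hL] with T h2 hT h3
  have hlog : 0 < Real.log T := Real.log_pos hT
  have hX : 0 < Xf T := Xf_pos hT
  have hTL : T * Real.log T ≠ 0 := by positivity
  have e1 : ∀ a ∈ Set.uIcc (0 : ℝ) L, (Nstar T a : ℝ) / (T * Real.log T) - P a =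
      1 / (4 * Real.pi) * (Aa T a - Aa T 0) - 1 / (2 * Real.pi) * gp a := by
    intro a ha
    rw [Set.uIcc_of_le (by linarith)] at ha
    have h4 : 2 * Real.pi * a / Real.log T < m := by
      refine lt_of_le_of_lt ?_ h2
      apply div_le_div_of_nonneg_right _ hlog.le
      have := ha.2
      nlinarith
    rw [Nstar_eq hm hT h4, P_eq]
    have h5 := Dn_eq (T := T) ha.1
    unfold Dn at h5
    rw [h5]
    unfold Xf
    field_simp
    ring
  rw [intervalIntegral.integral_congr e1]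
  obtain ⟨i1, i2⟩ := Aa_int (T := T) (L := L) (by linarith)
  rw [intervalIntegral.integral_sub ((i1.sub (by simp)).const_mul _)
    ((gp_cont.intervalIntegrable _ _).const_mul _), intervalIntegral.integral_const_mul,
    intervalIntegral.integral_const_mul, intervalIntegral.integral_sub i1 (by simp), i2,
    intervalIntegral.integral_const, smul_eq_mul, sub_zero]
  have e2 : (Neq T : ℝ) / (T * Real.log T / (2 * Real.pi)) = Aa T 0 := by
    rw [Neq_eq hT]
    unfold Aa Xf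
    rw [div_eq_inv_mul]
  rw [e2]
  have h6 := pred_int hL
  set A := TT T L / Xf T with hA
  set B := ∫ a in (0 : ℝ)..L, gp a with hB
  have e3 : 1 / (4 * Real.pi) * (A - L * Aa T 0) - 1 / (2 * Real.pi) * B +
      L / (4 * Real.pi) * (Aa T 0 - 1) =
      1 / (4 * Real.pi) * (A - (L ^ 2 + 1 / Real.pi ^ 2 * Real.log L)) -
      1 / (2 * Real.pi) * (B - (L ^ 2 / 2 - L / 2 + 1 / (2 * Real.pi ^ 2) * Real.log L)) := by
    field_simp
    ring
  rw [e3]
  refine (abs_sub _ _).trans ?_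
  rw [abs_mul, abs_mul, abs_of_pos (by positivity : 0 < 1 / (4 * Real.pi)),
    abs_of_pos (by positivity : 0 < 1 / (2 * Real.pi))]
  gcongr

end Pool.Agent.Q276.NV
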