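import Pool.Agent.Q276.NV.C1
import Pool.Agent.W54.TCF.NT

/-! Windows of ordinates. -/

set_option autoImplicit false

open Filter Topology Set MeasureTheory

namespace Pool.Agent.Q276.NV

open SG (ord NZ zmult)
open Pool.Agent.Y744 (Zt mz mem_Zt mz_nonneg Xf Xf_pos sum_Zt short_count sum_Zb)
open H177.Lat (yy)
open Q241.OP (low_zero)

/-- the window count, restricted to the ordinates up to `T` -/
noncomputable def WW (T u v t : ℝ) : ℝ := (NZ (min (t + v) T) : ℝ) - NZ (min (t + u) T)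

lemma WW_eq {u v : ℝ} (huv : u ≤ v) (T t : ℝ) : WW T u v t = ∑ n ∈ Finset.Ioc 0 (NZ T),
    (Ico (ord n - v) (ord n - u)).indicator (fun _ => (1 : ℝ)) t := by
  classical
  have h1 : ∀ n ∈ Finset.Ioc 0 (NZ T), (Ico (ord n - v) (ord n - u)).indicator
      (fun _ => (1 : ℝ)) t = if n ∈ Finset.Ioc (NZ (min (t + u) T)) (NZ (min (t + v) T))
        then 1 else 0 := by
    intro n hn
    rw [Finset.mem_Ioc] at hn
    have hnT : ord n ≤ T := (SG.ord_le_iff (by omega : 1 ≤ n) T).mpr hn.2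
    have i1 : ord n ≤ t + v ↔ n ≤ NZ (min (t + v) T) := by
      rw [← SG.ord_le_iff (by omega : 1 ≤ n), le_min_iff]
      exact ⟨fun h => ⟨h, hnT⟩, fun h => h.1⟩
    have i2 : ord n ≤ t + u ↔ n ≤ NZ (min (t + u) T) := by
      rw [← SG.ord_le_iff (by omega : 1 ≤ n), le_min_iff]
      exact ⟨fun h => ⟨h, hnT⟩, fun h => h.1⟩
    by_cases h : t ∈ Ico (ord n - v) (ord n - u)
    · rw [Set.indicator_of_mem h, if_pos]
      rw [Finset.mem_Ioc]
      refine ⟨?_, i1.1 (by linarith [h.1])⟩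
      by_contra hc
      push Not at hc
      linarith [i2.2 hc, h.2]
    · rw [Set.indicator_of_notMem h, if_neg]
      rw [Finset.mem_Ioc]
      rintro ⟨h2, h3⟩
      apply h
      refine ⟨by linarith [i1.2 h3], ?_⟩
      by_contra hc
      push Not at hc
      have := i2.1 (by linarith)
      omega
  rw [Finset.sum_congr rfl h1, Finset.sum_ite_mem]
  have h2 : Finset.Ioc 0 (NZ T) ∩ Finset.Ioc (NZ (min (t + u) T)) (NZ (min (t + v) T)) =
      Finset.Ioc (NZ (min (t + u) T)) (NZ (min (t + v) T)) := by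
    apply Finset.inter_eq_right.2
    intro n hn
    rw [Finset.mem_Ioc] at hn ⊢
    have := SG.NZ_mono (min_le_right (t + v) T)
    omega
  rw [h2, Finset.sum_const, Nat.card_Ioc, nsmul_eq_mul, mul_one]
  have h3 : NZ (min (t + u) T) ≤ NZ (min (t + v) T) :=
    SG.NZ_mono (min_le_min_right T (by linarith))
  unfold WW
  rw [Nat.cast_sub h3]

lemma ind_int1 (a b : ℝ) : Integrable ((Ico a b).indicator (fun _ => (1 : ℝ))) := by
  rw [integrable_indicator_iff measurableSet_Ico]
  exact integrableOn_const (by simp)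

lemma int_WW {u v : ℝ} (huv : u ≤ v) (T : ℝ) :
    Integrable (WW T u v) ∧ ∫ t, WW T u v t = (v - u) * NZ T := by
  have e : WW T u v = fun t => ∑ n ∈ Finset.Ioc 0 (NZ T),
    (Ico (ord n - v) (ord n - u)).indicator (fun _ => (1 : ℝ)) t := funext fun t => WW_eq huv T t
  rw [e]
  refine ⟨integrable_finsetSum _ fun n _ => ind_int1 _ _, ?_⟩
  rw [integral_finsetSum _ fun n _ => ind_int1 _ _]
  have h1 : ∀ n ∈ Finset.Ioc 0 (NZ T),
      ∫ t, (Ico (ord n - v) (ord n - u)).indicator (fun _ => (1 : ℝ)) t = v - u := by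
    intro n _
    rw [integral_indicator measurableSet_Ico, setIntegral_const, smul_eq_mul, mul_one,
      Measure.real, Real.volume_Ico, ENNReal.toReal_ofReal (by linarith)]
    ring
  rw [Finset.sum_congr rfl h1, Finset.sum_const, Nat.card_Ioc, nsmul_eq_mul]
  simp only [Nat.sub_zero]
  ring

lemma ind_mul (a b u v : ℝ) (t : ℝ) : (Ico (a - v) (a - u)).indicator (fun _ => (1 : ℝ)) t *
    (Ico (b - v) (b - u)).indicator (fun _ => (1 : ℝ)) t =
    (Ico (max a b - v) (min a b - u)).indicator (fun _ => (1 : ℝ)) t := by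
  have h1 : Ico (max a b - v) (min a b - u) = Ico (a - v) (a - u) ∩ Ico (b - v) (b - u) := by
    ext x
    simp only [Set.mem_inter_iff, Set.mem_Ico]
    rcases le_total a b with h | h
    · rw [max_eq_right h, min_eq_left h]
      constructor
      · rintro ⟨h1, h2⟩; exact ⟨⟨by linarith, h2⟩, ⟨h1, by linarith⟩⟩
      · rintro ⟨⟨h1, h2⟩, ⟨h3, h4⟩⟩; exact ⟨h3, h2⟩
    · rw [max_eq_left h, min_eq_right h]
      constructor
      · rintro ⟨h1, h2⟩; exact ⟨⟨h1, by linarith⟩, ⟨by linarith, h2⟩⟩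
      · rintro ⟨⟨h1, h2⟩, ⟨h3, h4⟩⟩; exact ⟨h1, h4⟩
  rw [h1]
  by_cases h2 : t ∈ Ico (a - v) (a - u)
  · by_cases h3 : t ∈ Ico (b - v) (b - u)
    · rw [Set.indicator_of_mem h2, Set.indicator_of_mem h3, Set.indicator_of_mem
        (Set.mem_inter h2 h3), mul_one]
    · rw [Set.indicator_of_notMem h3, mul_zero, Set.indicator_of_notMem
        (s := Ico (a - v) (a - u) ∩ Ico (b - v) (b - u)) (fun h => h3 h.2)]
  · rw [Set.indicator_of_notMem h2, zero_mul, Set.indicator_of_notMem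
      (s := Ico (a - v) (a - u) ∩ Ico (b - v) (b - u)) (fun h => h2 h.1)]

lemma int_WW2 {u v : ℝ} (huv : u ≤ v) (T : ℝ) :
    Integrable (fun t => WW T u v t ^ 2) ∧ ∫ t, WW T u v t ^ 2 =
      ∑ n ∈ Finset.Ioc 0 (NZ T), ∑ m ∈ Finset.Ioc 0 (NZ T),
        max 0 ((v - u) - |ord n - ord m|) := by
  have e : (fun t => WW T u v t ^ 2) = fun t => ∑ n ∈ Finset.Ioc 0 (NZ T),
      ∑ m ∈ Finset.Ioc 0 (NZ T), (Ico (max (ord n) (ord m) - v)
        (min (ord n) (ord m) - u)).indicator (fun _ => (1 : ℝ)) t := by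
    funext t
    rw [WW_eq huv, sq, Finset.sum_mul_sum]
    exact Finset.sum_congr rfl fun n _ => Finset.sum_congr rfl fun m _ => ind_mul _ _ _ _ _
  rw [e]
  refine ⟨integrable_finsetSum _ fun n _ => integrable_finsetSum _ fun m _ => ind_int1 _ _, ?_⟩
  rw [integral_finsetSum _ fun n _ => integrable_finsetSum _ fun m _ => ind_int1 _ _]
  refine Finset.sum_congr rfl fun n _ => ?_
  rw [integral_finsetSum _ fun m _ => ind_int1 _ _]
  refine Finset.sum_congr rfl fun m _ => ?_
  rw [integral_indicator measurableSet_Ico, setIntegral_const, smul_eq_mul, mul_one,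
      Measure.real, Real.volume_Ico, ENNReal.toReal_ofReal', max_comm]
  congr 1
  rcases le_total (ord n) (ord m) with h | h
  · rw [max_eq_right h, min_eq_left h, abs_of_nonpos (by linarith)]; ring
  · rw [max_eq_left h, min_eq_right h, abs_of_nonneg (by linarith)]; ring

/-- the window count -/
noncomputable def DD (u v t : ℝ) : ℝ := (NZ (t + v) : ℝ) - NZ (t + u)

/-- comparison of the two counts -/
lemma edge {T u v η m : ℝ} (hm : ∀ s ∈ Q241.OP.ZZ, 0 < s.im → m ≤ s.im) (hη : η < m)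
    (hη1 : η ≤ 1) (hu : |u| ≤ η) (hv : |v| ≤ η) (huv : u ≤ v) (p : ℕ) (hp : p ≠ 0)
    (t : ℝ) :
    |(Ioc 0 T).indicator (fun t => DD u v t ^ p) t - WW T u v t ^ p| ≤
      (Ioc (T - η) (T + η)).indicator (fun _ => ((NZ (T + 1) : ℝ) - NZ (T - 2)) ^ p) t := by
  obtain ⟨u1, u2⟩ := abs_le.1 hu
  obtain ⟨v1, v2⟩ := abs_le.1 hv
  have hη0 : 0 ≤ η := (abs_nonneg u).trans hu
  have hmon : ∀ {a b : ℝ}, a ≤ b → (NZ a : ℝ) ≤ NZ b := fun h => by exact_mod_cast SG.NZ_mono h
  set M : ℝ := (NZ (T + 1) : ℝ) - NZ (T - 2) with hM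
  have hM0 : 0 ≤ M := by
    have : (NZ (T - 2) : ℝ) ≤ NZ (T + 1) := hmon (by linarith)
    linarith
  have hW0 : 0 ≤ WW T u v t := by
    have : (NZ (min (t + u) T) : ℝ) ≤ NZ (min (t + v) T) :=
      hmon (min_le_min_right T (by linarith))
    unfold WW
    linarith
  have hNZ0 : ∀ x : ℝ, x < m → NZ x = 0 := by
    intro x hx
    rw [SG.NZ_eq]
    apply Finset.sum_eq_zero
    intro s hs
    rw [Set.Finite.mem_toFinset] at hs
    have h1 := hm s ⟨hs.1, hs.2.1, hs.2.2.1⟩ hs.2.2.2.1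
    exact absurd (h1.trans hs.2.2.2.2) (not_le.2 hx)
  rcases le_or_gt t 0 with h0 | h0
  · rw [Set.indicator_of_notMem (fun h => absurd h.1 (not_lt.2 h0))]
    have h1 : WW T u v t = 0 := by
      unfold WW
      rw [hNZ0 _ (by linarith [min_le_left (t + v) T]), hNZ0 _ (by linarith [min_le_left (t + u) T])]
      simp
    rw [h1, zero_pow hp, sub_self, abs_zero]
    exact Set.indicator_nonneg (fun _ _ => by positivity) _
  rcases le_or_gt t (T - η) with h1 | h1
  · rw [Set.indicator_of_mem (show t ∈ Ioc 0 T from ⟨h0, by linarith⟩)]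
    have h2 : WW T u v t = DD u v t := by
      unfold WW DD
      rw [min_eq_left (by linarith), min_eq_left (by linarith)]
    rw [h2, sub_self, abs_zero]
    exact Set.indicator_nonneg (fun _ _ => by positivity) _
  have hb1 : (NZ (T - 2) : ℝ) ≤ NZ (min (t + u) T) := hmon (le_min (by linarith) (by linarith))
  have hWM : WW T u v t ≤ M := by
    have : (NZ (min (t + v) T) : ℝ) ≤ NZ (T + 1) := hmon ((min_le_right _ _).trans (by linarith))
    unfold WW
    linarith
  have hWp : WW T u v t ^ p ≤ M ^ p := pow_le_pow_left₀ hW0 hWM p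
  have hWp0 : 0 ≤ WW T u v t ^ p := by positivity
  rcases le_or_gt t T with h2 | h2
  · rw [Set.indicator_of_mem (show t ∈ Ioc 0 T from ⟨h0, h2⟩),
      Set.indicator_of_mem (show t ∈ Ioc (T - η) (T + η) from ⟨h1, by linarith⟩)]
    have hD0 : 0 ≤ DD u v t := by
      have : (NZ (t + u) : ℝ) ≤ NZ (t + v) := hmon (by linarith)
      unfold DD
      linarith
    have hDM : DD u v t ≤ M := by
      have c1 : (NZ (t + v) : ℝ) ≤ NZ (T + 1) := hmon (by linarith)
      have c2 : (NZ (T - 2) : ℝ) ≤ NZ (t + u) := hmon (by linarith)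
      unfold DD
      linarith
    have hDp : DD u v t ^ p ≤ M ^ p := pow_le_pow_left₀ hD0 hDM p
    have hDp0 : 0 ≤ DD u v t ^ p := by positivity
    rw [abs_le]
    constructor <;> linarith
  · rw [Set.indicator_of_notMem (fun h => absurd h.2 (not_le.2 h2)), zero_sub, abs_neg,
      abs_of_nonneg hWp0]
    rcases le_or_gt t (T + η) with h3 | h3
    · rw [Set.indicator_of_mem (show t ∈ Ioc (T - η) (T + η) from ⟨h1, h3⟩)]
      exact hWp
    · have h4 : WW T u v t = 0 := by
        unfold WW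
        rw [min_eq_right (by linarith), min_eq_right (by linarith), sub_self]
      rw [h4, zero_pow hp]
      exact Set.indicator_nonneg (fun _ _ => by positivity) _

lemma NZ_cmono : Monotone (fun t : ℝ => (NZ t : ℝ)) := fun _ _ h =>
  Nat.cast_le.2 (SG.NZ_mono h)

lemma NZ_meas : Measurable (fun t : ℝ => (NZ t : ℝ)) := NZ_cmono.measurable

lemma DD_ii (u v : ℝ) (p : ℕ) (a b : ℝ) :
    IntervalIntegrable (fun t => DD u v t ^ p) volume a b := by
  have hmon : ∀ {a b : ℝ}, a ≤ b → (NZ a : ℝ) ≤ NZ b := fun h => Nat.cast_le.2 (SG.NZ_mono h)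
  have h1 : Measurable (fun t : ℝ => DD u v t ^ p) := by
    unfold DD
    exact ((NZ_meas.comp (measurable_id.add_const v)).sub
      (NZ_meas.comp (measurable_id.add_const u))).pow_const p
  rw [intervalIntegrable_iff]
  refine IntegrableOn.of_bound (by simp) h1.aestronglyMeasurable
    (((NZ (max a b + v) : ℝ) + NZ (max a b + u)) ^ p) ?_
  refine (ae_restrict_iff' measurableSet_uIoc).2 (ae_of_all _ fun t ht => ?_)
  have ht2 : t ≤ max a b := ht.2
  rw [norm_pow, Real.norm_eq_abs]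
  apply pow_le_pow_left₀ (abs_nonneg _)
  have c1 : (NZ (t + v) : ℝ) ≤ NZ (max a b + v) := hmon (by linarith)
  have c2 : (NZ (t + u) : ℝ) ≤ NZ (max a b + u) := hmon (by linarith)
  have c3 : (0 : ℝ) ≤ NZ (t + v) := Nat.cast_nonneg _
  have c4 : (0 : ℝ) ≤ NZ (t + u) := Nat.cast_nonneg _
  unfold DD
  rw [abs_le]
  constructor <;> linarith

lemma edge_int {T u v η m : ℝ} (hm : ∀ s ∈ Q241.OP.ZZ, 0 < s.im → m ≤ s.im) (hη : η < m)
    (hη1 : η ≤ 1) (hu : |u| ≤ η) (hv : |v| ≤ η) (huv : u ≤ v) (hT : 2 ≤ T) (p : ℕ) (hp : p ≠ 0)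
    (hW : Integrable (fun t => WW T u v t ^ p)) :
    |(∫ t in (0 : ℝ)..T, DD u v t ^ p) - ∫ t, WW T u v t ^ p| ≤
      2 * η * ((NZ (T + 1) : ℝ) - NZ (T - 2)) ^ p := by
  have hη0 : 0 ≤ η := (abs_nonneg u).trans hu
  have h1 : ∫ t in (0 : ℝ)..T, DD u v t ^ p = ∫ t, (Ioc 0 T).indicator (fun t => DD u v t ^ p) t := by
    rw [intervalIntegral.integral_of_le (by linarith), integral_indicator measurableSet_Ioc]
  have hi : Integrable ((Ioc 0 T).indicator (fun t => DD u v t ^ p)) := by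
    rw [integrable_indicator_iff measurableSet_Ioc]
    exact (intervalIntegrable_iff_integrableOn_Ioc_of_le (by linarith)).1 (DD_ii u v p 0 T)
  have hi2 : Integrable ((Ioc (T - η) (T + η)).indicator
      (fun _ : ℝ => ((NZ (T + 1) : ℝ) - NZ (T - 2)) ^ p)) := by
    rw [integrable_indicator_iff measurableSet_Ioc]
    exact integrableOn_const (by simp)
  rw [h1, ← integral_sub hi hW]
  refine (abs_integral_le_integral_abs).trans ?_
  refine (integral_mono (hi.sub hW).abs hi2 fun t => edge hm hη hη1 hu hv huv p hp t).trans ?_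
  rw [integral_indicator measurableSet_Ioc, setIntegral_const, smul_eq_mul, Measure.real,
    Real.volume_Ioc, ENNReal.toReal_ofReal (by linarith)]
  apply le_of_eq
  ring

/-- zeros near the upper end -/
lemma end_count : ∃ C T0 : ℝ, 0 < C ∧ 20 ≤ T0 ∧ ∀ T : ℝ, T0 ≤ T →
    (NZ (T + 1) : ℝ) - NZ (T - 2) ≤ C * (Real.log T) ^ 2 := by
  obtain ⟨C, hC, h⟩ := short_count
  refine ⟨C, 20, hC, le_rfl, fun T hT => ?_⟩
  have h1 := h (T - 2) (by linarith)
  rw [sum_Zb (by linarith)] at h1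
  have h2 := Pool.Agent.Q276.LR.NZ_diff (a := T - 2) (b := T + 1) (by linarith) (by linarith)
  have e : T - 2 + 3 = T + 1 := by ring
  rw [e] at h1
  rw [h2]
  refine h1.trans (mul_le_mul_of_nonneg_left ?_ hC.le)
  apply pow_le_pow_left₀ (Real.log_nonneg (by linarith))
  exact Real.log_le_log (by linarith) (by linarith)

end Pool.Agent.Q276.NV
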