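import Pool.Agent.Q276.NV.D2

/-! Pair sums with smooth test functions at large scale: the dyadic decomposition. -/

set_option autoImplicit false

open Filter Topology Set MeasureTheory
open scoped ContDiff

namespace Pool.Agent.Q276.NV

open Pool.Agent.Y750.OM (bl)
open Pool.Agent.Q276.UR (PSm pair_basic bl_sub PSm_sub)
open Q241.OP (OT mo BlkE)
open H370 (NN)

lemma out_supp {r : ℝ → ℝ} {δ : ℝ} (hs : ∀ x, δ < |x| → r x = 0) : HasCompactSupport r := by
  apply HasCompactSupport.intro (isCompact_Icc (a := -δ) (b := δ))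
  intro x hx
  apply hs
  by_contra h
  push Not at h
  exact hx (abs_le.1 h)

/-- the unconditional theorem for smooth functions -/
theorem basicS : ∃ C : ℝ, 0 < C ∧ ∀ δ : ℝ, 0 < δ → δ ≤ 1 / 2 → ∀ r : ℝ → ℝ, ContDiff ℝ ∞ r →
    (∀ x, δ < |x| → r x = 0) → ∀ R : ℝ, (∀ x, |r x| ≤ R) → ∀ ε : ℝ, 0 < ε → ∀ᶠ V : ℝ in atTop,
      |PSm r V - NN riemannZeta V (2 * V) * mo r| ≤
        (C * R * δ ^ 3 + ε) * NN riemannZeta V (2 * V) := by
  obtain ⟨C, hC, h⟩ := pair_basic
  refine ⟨C, hC, fun δ hδ hδ2 r hr hs R hR ε hε => ?_⟩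
  have hc := out_supp hs
  obtain ⟨T0, hT0, h1⟩ := h δ hδ hδ2 r
    (by
      obtain ⟨K, hK⟩ := (contDiff_infty.1 hr 1).lipschitzWith_of_hasCompactSupport
        hc (by norm_num)
      refine ⟨K, fun x y => ?_⟩
      have := hK.dist_le_mul x y
      rwa [Real.dist_eq, Real.dist_eq] at this) hs
    (by
      obtain ⟨A, hA, hA'⟩ := (bl_smooth hr hc).1
      refine ⟨A, fun u => ?_⟩
      have := hA' u
      rw [le_div_iff₀ (by positivity)] at this
      exact this) R hR ε hε
  filter_upwards [eventually_ge_atTop T0] with V hV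
  exact h1 V hV

/-- the scaled cutoff -/
noncomputable def chk (k : ℕ) (x : ℝ) : ℝ := ch (2 ^ k * x)

lemma chk_smooth (k : ℕ) : ContDiff ℝ ∞ (chk k) := by
  unfold chk
  exact ch_smooth.comp (contDiff_const.mul contDiff_id)

lemma chk_out {k : ℕ} {x : ℝ} (h : 1 / 2 * (1 / 2) ^ k < |x|) : chk k x = 0 := by
  unfold chk
  apply ch_zero
  rw [abs_mul, abs_of_pos (by positivity : (0 : ℝ) < 2 ^ k)]
  have h1 : (2 : ℝ) ^ k * (1 / 2 * (1 / 2) ^ k) = 1 / 2 := by
    rw [mul_left_comm, ← mul_pow]; norm_num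
  have h2 : (2 : ℝ) ^ k * (1 / 2 * (1 / 2) ^ k) < 2 ^ k * |x| :=
    mul_lt_mul_of_pos_left h (by positivity)
  linarith

lemma chk_in {k : ℕ} {x : ℝ} (h : |x| ≤ 1 / 4 * (1 / 2) ^ k) : chk k x = 1 := by
  unfold chk
  apply ch_one
  rw [abs_mul, abs_of_pos (by positivity : (0 : ℝ) < 2 ^ k)]
  have h1 : (2 : ℝ) ^ k * (1 / 4 * (1 / 2) ^ k) = 1 / 4 := by
    rw [mul_left_comm, ← mul_pow]; norm_num
  have h2 : (2 : ℝ) ^ k * |x| ≤ 2 ^ k * (1 / 4 * (1 / 2) ^ k) :=
    mul_le_mul_of_nonneg_left h (by positivity)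
  linarith

lemma half_le (k : ℕ) : (1 : ℝ) / 2 * (1 / 2) ^ k ≤ 1 / 2 := by
  have : ((1 : ℝ) / 2) ^ k ≤ 1 := pow_le_one₀ (by norm_num) (by norm_num)
  linarith

lemma mo_sub {r1 r2 r : ℝ → ℝ} (h1 : Continuous r1) (h2 : Continuous r2) (c1 : HasCompactSupport r1)
    (c2 : HasCompactSupport r2) (hr : ∀ x, r x = r1 x - r2 x) : mo r = mo r1 - mo r2 := by
  have i1 : Integrable fun x : ℝ => |x| * r1 x :=
    (continuous_abs.mul h1).integrable_of_hasCompactSupport c1.mul_left
  have i2 : Integrable fun x : ℝ => |x| * r2 x :=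
    (continuous_abs.mul h2).integrable_of_hasCompactSupport c2.mul_left
  unfold mo
  have e : (fun x : ℝ => |x| * r x) = fun x => |x| * r1 x - |x| * r2 x := by
    funext x
    rw [hr]; ring
  rw [e, integral_sub i1 i2, hr]
  ring

/-- **the dyadic decomposition** -/
theorem dyadic : ∃ C : ℝ, 0 < C ∧ ∀ q : ℝ → ℝ, ContDiff ℝ ∞ q → ∀ (R : ℝ) (Rk : ℕ → ℝ),
    (∀ x, |q x| ≤ R) → (∀ k x, 1 / 8 * (1 / 2) ^ k ≤ |x| → |q x| ≤ Rk k) → ∀ K : ℕ,
    BlkE (fun x => q x * ch x) (C * (∑ k ∈ Finset.range K, Rk k * (1 / 8) ^ k +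
      R * (1 / 8) ^ K)) := by
  obtain ⟨C, hC, hb⟩ := basicS
  refine ⟨C, hC, fun q hq R Rk hR hRk K => ?_⟩
  have hR0 : 0 ≤ R := (abs_nonneg _).trans (hR 0)
  have hRk0 : ∀ k, 0 ≤ Rk k := fun k => by
    refine (abs_nonneg (q (1 / 8 * (1 / 2) ^ k))).trans (hRk k _ ?_)
    rw [abs_of_pos (by positivity)]
  have hcs : ∀ k, HasCompactSupport (fun x => q x * chk k x) := fun k =>
    out_supp (δ := 1 / 2 * (1 / 2) ^ k) fun x hx => by rw [chk_out hx, mul_zero]
  have hsm : ∀ k, ContDiff ℝ ∞ (fun x => q x * chk k x) := fun k => hq.mul (chk_smooth k)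
  have key : ∀ K : ℕ, ∀ ε : ℝ, 0 < ε → ∀ᶠ V : ℝ in atTop,
      |(PSm (fun x => q x * chk 0 x) V - PSm (fun x => q x * chk K x) V) -
        NN riemannZeta V (2 * V) * (mo (fun x => q x * chk 0 x) - mo (fun x => q x * chk K x))| ≤
        (C * (∑ k ∈ Finset.range K, Rk k * (1 / 8) ^ k) + ε) * NN riemannZeta V (2 * V) := by
    intro K
    induction K with
    | zero =>
      intro ε hε
      refine Eventually.of_forall fun V => ?_
      rw [sub_self, sub_self, mul_zero, sub_zero, abs_zero]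
      have : (0 : ℝ) ≤ NN riemannZeta V (2 * V) := Nat.cast_nonneg _
      simp only [Finset.range_zero, Finset.sum_empty, mul_zero, zero_add]
      positivity
    | succ K ih =>
      intro ε hε
      set r : ℝ → ℝ := fun x => q x * (chk K x - chk (K + 1) x) with hr
      have hrs : ∀ x, 1 / 2 * (1 / 2) ^ K < |x| → r x = 0 := by
        intro x hx
        have h2 : 1 / 2 * (1 / 2) ^ (K + 1) < |x| := by
          refine lt_of_le_of_lt ?_ hx
          rw [pow_succ]
          have : (0 : ℝ) ≤ (1 / 2) ^ K := by positivity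
          linarith
        simp only [hr]
        rw [chk_out hx, chk_out h2, sub_self, mul_zero]
      have hrR : ∀ x, |r x| ≤ Rk K := by
        intro x
        simp only [hr]
        rcases le_or_gt (1 / 8 * (1 / 2) ^ K) |x| with h | h
        · rw [abs_mul]
          have h1 : |chk K x - chk (K + 1) x| ≤ 1 := by
            unfold chk
            rw [abs_le]
            constructor <;> linarith [ch_nonneg (2 ^ K * x), ch_le_one (2 ^ K * x),
              ch_nonneg (2 ^ (K + 1) * x), ch_le_one (2 ^ (K + 1) * x)]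
          calc |q x| * |chk K x - chk (K + 1) x| ≤ Rk K * 1 :=
                mul_le_mul (hRk K x h) h1 (abs_nonneg _) (hRk0 K)
            _ = Rk K := mul_one _
        · have hp : (0 : ℝ) < (1 / 2) ^ K := by positivity
          rw [chk_in (by linarith), chk_in (by rw [pow_succ]; linarith), sub_self, mul_zero,
            abs_zero]
          exact hRk0 K
      have hrd : ∀ x, r x = q x * chk K x - q x * chk (K + 1) x := fun x => by
        simp only [hr]; ring
      have s1 : ∀ x, (1 : ℝ) / 2 < |x| → q x * chk K x = 0 := fun x hx => by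
        rw [chk_out ((half_le K).trans_lt hx), mul_zero]
      have s2 : ∀ x, (1 : ℝ) / 2 < |x| → q x * chk (K + 1) x = 0 := fun x hx => by
        rw [chk_out ((half_le (K + 1)).trans_lt hx), mul_zero]
      have hbl := bl_sub (hsm K).continuous (hsm (K + 1)).continuous s1 s2 hrd
      have hmo := mo_sub (hsm K).continuous (hsm (K + 1)).continuous (hcs K) (hcs (K + 1)) hrd
      have hrsm : ContDiff ℝ ∞ r := hq.mul ((chk_smooth K).sub (chk_smooth (K + 1)))
      filter_upwards [ih (ε / 2) (by positivity), hb (1 / 2 * (1 / 2) ^ K) (by positivity)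
        (half_le K) r hrsm hrs (Rk K) hrR (ε / 2) (by positivity)] with V g1 g2
      rw [PSm_sub hbl, hmo] at g2
      have e3 : C * Rk K * (1 / 2 * (1 / 2) ^ K) ^ 3 ≤ C * (Rk K * (1 / 8) ^ K) := by
        have : ((1 : ℝ) / 2 * (1 / 2) ^ K) ^ 3 = 1 / 8 * (1 / 8) ^ K := by
          rw [mul_pow, ← pow_mul, mul_comm K 3, pow_mul]
          norm_num
        rw [this]
        have h0 : 0 ≤ C * (Rk K * (1 / 8) ^ K) := by
          have := hRk0 K
          positivity
        linarith
      have hN0 : (0 : ℝ) ≤ NN riemannZeta V (2 * V) := Nat.cast_nonneg _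
      have e5 : (PSm (fun x => q x * chk 0 x) V - PSm (fun x => q x * chk (K + 1) x) V) -
          NN riemannZeta V (2 * V) * (mo (fun x => q x * chk 0 x) -
            mo (fun x => q x * chk (K + 1) x)) =
          ((PSm (fun x => q x * chk 0 x) V - PSm (fun x => q x * chk K x) V) -
          NN riemannZeta V (2 * V) * (mo (fun x => q x * chk 0 x) -
            mo (fun x => q x * chk K x))) +
          (PSm (fun x => q x * chk K x) V - PSm (fun x => q x * chk (K + 1) x) V -
          NN riemannZeta V (2 * V) * (mo (fun x => q x * chk K x) -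
            mo (fun x => q x * chk (K + 1) x))) := by ring
      rw [e5, Finset.sum_range_succ]
      refine (abs_add_le _ _).trans ((add_le_add g1 g2).trans ?_)
      rw [← add_mul]
      apply mul_le_mul_of_nonneg_right _ hN0
      linarith
  have e0 : (fun x => q x * ch x) = fun x => q x * chk 0 x := by
    funext x
    unfold chk
    rw [pow_zero, one_mul]
  rw [e0]
  apply BlkE_of
  · have : 0 ≤ ∑ k ∈ Finset.range K, Rk k * (1 / 8) ^ k :=
      Finset.sum_nonneg fun k _ => mul_nonneg (hRk0 k) (by positivity)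
    positivity
  intro ε hε
  filter_upwards [key K (ε / 2) (by positivity), hb (1 / 2 * (1 / 2) ^ K) (by positivity)
    (half_le K) (fun x => q x * chk K x) (hsm K) (fun x hx => by rw [chk_out hx, mul_zero]) R
    (fun x => by
      rw [abs_mul]
      have h1 : |chk K x| ≤ 1 := by
        unfold chk
        rw [abs_of_nonneg (ch_nonneg _)]
        exact ch_le_one _
      calc |q x| * |chk K x| ≤ R * 1 := mul_le_mul (hR x) h1 (abs_nonneg _) hR0
        _ = R := mul_one _) (ε / 2) (by positivity)] with V g1 g2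
  have e3 : C * R * (1 / 2 * (1 / 2) ^ K) ^ 3 ≤ C * (R * (1 / 8) ^ K) := by
    have : ((1 : ℝ) / 2 * (1 / 2) ^ K) ^ 3 = 1 / 8 * (1 / 8) ^ K := by
      rw [mul_pow, ← pow_mul, mul_comm K 3, pow_mul]
      norm_num
    rw [this]
    have h0 : 0 ≤ C * (R * (1 / 8) ^ K) := by positivity
    linarith
  have hN0 : (0 : ℝ) ≤ NN riemannZeta V (2 * V) := Nat.cast_nonneg _
  have e5 : PSm (fun x => q x * chk 0 x) V -
      NN riemannZeta V (2 * V) * mo (fun x => q x * chk 0 x) =
      ((PSm (fun x => q x * chk 0 x) V - PSm (fun x => q x * chk K x) V) -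
      NN riemannZeta V (2 * V) * (mo (fun x => q x * chk 0 x) -
        mo (fun x => q x * chk K x))) +
      (PSm (fun x => q x * chk K x) V -
      NN riemannZeta V (2 * V) * mo (fun x => q x * chk K x)) := by ring
  rw [e5]
  refine (abs_add_le _ _).trans ((add_le_add g1 g2).trans ?_)
  rw [← add_mul]
  apply mul_le_mul_of_nonneg_right _ hN0
  linarith

end Pool.Agent.Q276.NV
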