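import Pool.Agent.Q276.NV.E1

/-! Pair sums with smooth test functions at large scale. -/

set_option autoImplicit false

open Filter Topology Set MeasureTheory FourierTransform
open scoped ContDiff SchwartzMap

namespace Pool.Agent.Q276.NV

open H177.Lat (KK tri KK_zero KK_nonneg KK_le KK_sq KK_ne tri_cont tri_even tri_nonneg)
open Pool.Agent.Q276.LR (four_tri tri_int TS TS_cont TS_sq TS_le cauchy_sum)
open Pool.Agent.Q276.UR (KK1_int tri_le_one)
open Pool.Agent.Y750.OM (bl)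
open SG (ord NZ)
open Pool.Agent.Y744 (Zt mz mem_Zt mz_nonneg QS Q2 Xf Xf_pos)
open H177.Lat (yy)
open Q241.OP (OT mo BlkE pair_up)

/-- the even part of the Fourier transform of a real Schwartz function -/
noncomputable def Gs (g : 𝓢(ℝ, ℝ)) : 𝓢(ℝ, ℝ) :=
  (𝓕 (g.postcompCLM (𝕜 := ℝ) Complex.ofRealCLM) : 𝓢(ℝ, ℂ)).postcompCLM (𝕜 := ℝ) Complex.reCLM

lemma cos_int {g : ℝ → ℝ} (hg : Integrable g) (u : ℝ) :
    Integrable (fun α => g α * Real.cos (2 * Real.pi * α * u)) :=
  hg.mul_bdd (c := 1) (by fun_prop) (Eventually.of_forall fun α => by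
    rw [Real.norm_eq_abs]; exact Real.abs_cos_le_one _)

lemma Gs_eq (g : 𝓢(ℝ, ℝ)) (x : ℝ) : Gs g x = bl g x := by
  have h0 : Gs g x = (𝓕 (fun v : ℝ => ((g v : ℝ) : ℂ)) x).re := rfl
  rw [h0, Real.fourier_real_eq_integral_exp_smul]
  unfold bl
  have hint : Integrable fun v : ℝ => Complex.exp (↑(-2 * Real.pi * v * x) * Complex.I) •
      ((g v : ℝ) : ℂ) := Pool.Agent.Q276.LR.four_int g.integrable.ofReal x
  have h2 := integral_re hint
  have h3 : ∀ v : ℝ, RCLike.re (Complex.exp (↑(-2 * Real.pi * v * x) * Complex.I) •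
      ((g v : ℝ) : ℂ)) = g v * Real.cos (2 * Real.pi * v * x) := by
    intro v
    have e1 : (↑(-2 * Real.pi * v * x) : ℂ) * Complex.I =
        ((-(2 * Real.pi * v * x) : ℝ) : ℂ) * Complex.I := by push_cast; ring
    rw [e1, Complex.exp_mul_I, ← Complex.ofReal_cos, ← Complex.ofReal_sin, Real.cos_neg,
      Real.sin_neg, smul_eq_mul]
    have e2 : (((Real.cos (2 * Real.pi * v * x) : ℝ) : ℂ) +
        ((-Real.sin (2 * Real.pi * v * x) : ℝ) : ℂ) * Complex.I) * ((g v : ℝ) : ℂ) =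
        ((g v * Real.cos (2 * Real.pi * v * x) : ℝ) : ℂ) +
        ((g v * -Real.sin (2 * Real.pi * v * x) : ℝ) : ℂ) * Complex.I := by
      simp only [Complex.ofReal_mul]; ring
    rw [e2]
    simp only [RCLike.re_to_complex, Complex.add_re, Complex.re_ofReal_mul, Complex.I_re,
      mul_zero, add_zero, Complex.ofReal_re]
  simp_rw [h3] at h2
  exact h2.symm

/-- inversion -/
lemma Gs_inv (g : 𝓢(ℝ, ℝ)) (u : ℝ) : bl (Gs g) u = (g u + g (-u)) / 2 := by
  set gC : 𝓢(ℝ, ℂ) := g.postcompCLM (𝕜 := ℝ) Complex.ofRealCLM with hgC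
  set F : 𝓢(ℝ, ℂ) := 𝓕 gC with hF
  have hinv : ∀ w : ℝ, ((g w : ℝ) : ℂ) = ∫ v : ℝ, Complex.exp (↑(2 * Real.pi * v * w) *
      Complex.I) • F v := by
    intro w
    have h1 : 𝓕⁻ (F : ℝ → ℂ) w = gC w := by
      have h2 : 𝓕⁻ F = gC := by rw [hF, FourierPair.fourierInv_fourier_eq]
      rw [← h2, SchwartzMap.fourierInv_coe]
    rw [Real.fourierInv_eq'] at h1
    have h3 : gC w = ((g w : ℝ) : ℂ) := rfl
    rw [← h3, ← h1]
    congr 1
    funext v
    congr 3
    simp only [RCLike.inner_apply, conj_trivial]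
    push_cast
    ring
  have hi : ∀ w : ℝ, Integrable fun v : ℝ => Complex.exp (↑(2 * Real.pi * v * w) *
      Complex.I) • F v := by
    intro w
    have h2 : Continuous fun x : ℝ => Complex.exp (↑(2 * Real.pi * x * w) * Complex.I) := by
      fun_prop
    have hFi : Integrable (F : ℝ → ℂ) volume := F.integrable
    exact hFi.bdd_smul (𝕜 := ℂ)
      (φ := fun x : ℝ => Complex.exp (↑(2 * Real.pi * x * w) * Complex.I)) 1
      h2.aestronglyMeasurable (Eventually.of_forall fun x => by rw [Complex.norm_exp_ofReal_mul_I])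
  have hsum := integral_add (hi u) (hi (-u))
  rw [← hinv, ← hinv] at hsum
  have h4 : ∀ v : ℝ, Complex.exp (↑(2 * Real.pi * v * u) * Complex.I) • F v +
      Complex.exp (↑(2 * Real.pi * v * -u) * Complex.I) • F v =
      ((2 * Real.cos (2 * Real.pi * v * u) : ℝ) : ℂ) * F v := by
    intro v
    have e1 : (↑(2 * Real.pi * v * -u) : ℂ) * Complex.I =
        ((-(2 * Real.pi * v * u) : ℝ) : ℂ) * Complex.I := by push_cast; ring
    rw [e1, Complex.exp_mul_I, Complex.exp_mul_I, ← Complex.ofReal_cos, ← Complex.ofReal_sin,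
      ← Complex.ofReal_cos, ← Complex.ofReal_sin, Real.cos_neg, Real.sin_neg, smul_eq_mul,
      smul_eq_mul]
    simp only [Complex.ofReal_mul, Complex.ofReal_neg, Complex.ofReal_ofNat]
    ring
  simp_rw [h4] at hsum
  have hi2 : Integrable fun v : ℝ => ((2 * Real.cos (2 * Real.pi * v * u) : ℝ) : ℂ) * F v := by
    have := (hi u).add (hi (-u))
    refine this.congr (Eventually.of_forall fun v => ?_)
    exact h4 v
  have h5 := congrArg Complex.re hsum
  have h6 := integral_re hi2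
  have h7 : RCLike.re (∫ v : ℝ, ((2 * Real.cos (2 * Real.pi * v * u) : ℝ) : ℂ) * F v) =
      (∫ v : ℝ, ((2 * Real.cos (2 * Real.pi * v * u) : ℝ) : ℂ) * F v).re := rfl
  rw [h7, h5] at h6
  have h8 : ∀ v : ℝ, RCLike.re (((2 * Real.cos (2 * Real.pi * v * u) : ℝ) : ℂ) * F v) =
      2 * (Gs g v * Real.cos (2 * Real.pi * v * u)) := by
    intro v
    have : Gs g v = (F v).re := rfl
    rw [this]
    simp only [RCLike.re_to_complex, Complex.re_ofReal_mul]
    ring
  simp_rw [h8] at h6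
  rw [integral_const_mul] at h6
  have h9 : (((g u : ℝ) : ℂ) + ((g (-u) : ℝ) : ℂ)).re = g u + g (-u) := by
    rw [Complex.add_re, Complex.ofReal_re, Complex.ofReal_re]
  rw [h9] at h6
  unfold bl
  linarith

end Pool.Agent.Q276.NV
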