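import Pool.Agent.Q276.NV.E2

/-! Pair sums with smooth test functions at large scale, continued. -/

set_option autoImplicit false

open Filter Topology Set MeasureTheory FourierTransform
open scoped ContDiff SchwartzMap

namespace Pool.Agent.Q276.NV

open H177.Lat (KK tri KK_zero KK_nonneg KK_le KK_sq KK_ne tri_cont tri_even tri_nonneg tri_in
  tri_zero)
open Pool.Agent.Q276.LR (four_tri tri_int TS TS_cont TS_sq TS_le cauchy_sum)
open Pool.Agent.Q276.UR (KK1_int tri_le_one)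
open Pool.Agent.Y750.OM (bl)
open SG (ord NZ)
open Pool.Agent.Y744 (Zt mz mem_Zt mz_nonneg QS Q2 Xf Xf_pos)
open H177.Lat (yy)
open Q241.OP (OT mo BlkE pair_up)

/-- the scaled transform -/
noncomputable def qq (g : 𝓢(ℝ, ℝ)) (L x : ℝ) : ℝ := L * Gs g (L * x)

lemma qq_smooth (g : 𝓢(ℝ, ℝ)) (L : ℝ) : ContDiff ℝ ∞ (qq g L) := by
  unfold qq
  have h1 : ContDiff ℝ ∞ (Gs g) := (Gs g).smooth ⊤
  exact contDiff_const.mul (h1.comp (contDiff_const.mul contDiff_id))

lemma qq_int (g : 𝓢(ℝ, ℝ)) {L : ℝ} (hL : 0 < L) : Integrable (qq g L) := by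
  unfold qq
  have h1 : Integrable (Gs g : ℝ → ℝ) volume := (Gs g).integrable
  exact (h1.comp_mul_left' hL.ne').const_mul _

/-- scaling of the transform -/
lemma bl_qq (g : 𝓢(ℝ, ℝ)) {L : ℝ} (hL : 0 < L) (u : ℝ) :
    bl (qq g L) u = (g (u / L) + g (-(u / L))) / 2 := by
  rw [← Gs_inv]
  unfold bl qq
  have h1 : ∀ α : ℝ, L * Gs g (L * α) * Real.cos (2 * Real.pi * α * u) =
      L * (fun x : ℝ => Gs g x * Real.cos (2 * Real.pi * x * (u / L))) (L * α) := by
    intro α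
    have : 2 * Real.pi * (L * α) * (u / L) = 2 * Real.pi * α * u := by field_simp
    simp only [this]
    ring
  simp_rw [h1]
  rw [integral_const_mul, Measure.integral_comp_mul_left
    (fun x : ℝ => Gs g x * Real.cos (2 * Real.pi * x * (u / L))), smul_eq_mul,
    abs_of_pos (by positivity : 0 < L⁻¹), mul_inv_cancel_left₀ hL.ne']

/-- the transform of the scaled function -/
lemma bl_scale (g : 𝓢(ℝ, ℝ)) {L : ℝ} (hL : 0 < L) (x : ℝ) :
    bl (fun u => g (u / L)) x = qq g L x := by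
  unfold qq
  rw [Gs_eq]
  unfold bl
  have h1 : ∀ α : ℝ, g (α / L) * Real.cos (2 * Real.pi * α * x) =
      (fun v : ℝ => g v * Real.cos (2 * Real.pi * v * (L * x))) (α / L) := by
    intro α
    have : 2 * Real.pi * (α / L) * (L * x) = 2 * Real.pi * α * x := by field_simp
    simp only [this]
  simp_rw [h1]
  rw [Measure.integral_comp_div
    (fun v : ℝ => g v * Real.cos (2 * Real.pi * v * (L * x))), smul_eq_mul, abs_of_pos hL]

/-- Parseval for the Fejer kernel -/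
lemma pars {f : ℝ → ℝ} (hf : Integrable f) :
    ∫ u, f u * KK 1 u = ∫ x, tri 1 x * bl f x := by
  have h1 : ∀ u, f u * KK 1 u = ∫ x, f u * (tri 1 x * Real.cos (2 * Real.pi * x * u)) := by
    intro u
    rw [integral_const_mul]
    rfl
  have h2 : ∀ x, tri 1 x * bl f x = ∫ u, f u * (tri 1 x * Real.cos (2 * Real.pi * x * u)) := by
    intro x
    unfold bl
    rw [← integral_const_mul]
    congr 1
    funext u
    have : 2 * Real.pi * u * x = 2 * Real.pi * x * u := by ring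
    rw [this]
    ring
  simp_rw [h1, h2]
  apply integral_integral_swap
  have h3 : Integrable (fun p : ℝ × ℝ => f p.1 * tri 1 p.2) (volume.prod volume) :=
    hf.mul_prod (tri_int one_pos)
  have h4 := h3.mul_bdd (c := 1) (g := fun p : ℝ × ℝ => Real.cos (2 * Real.pi * p.2 * p.1))
    (by fun_prop) (Eventually.of_forall fun p => by
      rw [Real.norm_eq_abs]; exact Real.abs_cos_le_one _)
  refine h4.congr (Eventually.of_forall fun p => ?_)
  simp only [Function.uncurry]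
  ring

/-- bounds for the scaled transform -/
lemma qq_bound (g : 𝓢(ℝ, ℝ)) : ∃ A : ℝ, 0 < A ∧ ∀ L : ℝ, 1 ≤ L → ∀ x : ℝ,
    |qq g L x| ≤ A * L ∧ |x| ^ 5 * |qq g L x| ≤ A / L ^ 4 := by
  obtain ⟨A0, hA0, hA0'⟩ := (Gs g).decay 0 0
  obtain ⟨A5, hA5, hA5'⟩ := (Gs g).decay 5 0
  simp only [pow_zero, one_mul, norm_iteratedFDeriv_zero] at hA0' hA5'
  refine ⟨A0 + A5, by positivity, fun L hL x => ?_⟩
  have hL0 : 0 < L := by linarith
  have h1 := hA0' (L * x)
  have h2 := hA5' (L * x)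
  rw [Real.norm_eq_abs] at h1
  rw [Real.norm_eq_abs, Real.norm_eq_abs, abs_mul, abs_of_pos hL0, mul_pow] at h2
  unfold qq
  rw [abs_mul, abs_of_pos hL0]
  constructor
  · have : L * |Gs g (L * x)| ≤ L * A0 := mul_le_mul_of_nonneg_left h1 hL0.le
    nlinarith
  · rw [le_div_iff₀ (by positivity)]
    calc |x| ^ 5 * (L * |Gs g (L * x)|) * L ^ 4 = L ^ 5 * |x| ^ 5 * |Gs g (L * x)| := by ring
      _ ≤ A0 + A5 := by linarith

/-- the predicted value of the pair sum -/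
noncomputable def pr (g : 𝓢(ℝ, ℝ)) (L : ℝ) : ℝ := g 0 + ∫ u, g (u / L) * (1 - KK 1 u)

lemma gL_int (g : 𝓢(ℝ, ℝ)) {L : ℝ} (hL : 0 < L) : Integrable (fun u => g (u / L)) := by
  have h1 : Integrable (g : ℝ → ℝ) volume := g.integrable
  exact h1.comp_div hL.ne'

lemma pr_eq (g : 𝓢(ℝ, ℝ)) {L : ℝ} (hL : 0 < L) :
    pr g L = qq g L 0 + ∫ x, (1 - tri 1 x) * qq g L x := by
  have hf := gL_int g hL
  have hq := qq_int g hL
  have hKi : Integrable (fun u => g (u / L) * KK 1 u) := by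
    refine hf.mul_bdd (c := 1) KK1_cont.aestronglyMeasurable (Eventually.of_forall fun u => ?_)
    rw [Real.norm_eq_abs, abs_of_nonneg (KK_nonneg one_pos u)]
    exact KK_le one_pos u
  have hTi : Integrable (fun x => tri 1 x * qq g L x) := by
    have := hq.mul_bdd (c := 1) (tri_cont 1).aestronglyMeasurable (Eventually.of_forall fun u => by
      rw [Real.norm_eq_abs, abs_of_nonneg (tri_nonneg 1 u)]
      exact tri_le_one u)
    refine this.congr (Eventually.of_forall fun x => ?_)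
    show qq g L x * tri 1 x = tri 1 x * qq g L x
    ring
  have e1 : ∫ u, g (u / L) * (1 - KK 1 u) = (∫ u, g (u / L)) - ∫ u, g (u / L) * KK 1 u := by
    rw [← integral_sub hf hKi]
    congr 1
    funext u
    ring
  have e2 : ∫ x, (1 - tri 1 x) * qq g L x = (∫ x, qq g L x) - ∫ x, tri 1 x * qq g L x := by
    rw [← integral_sub hq hTi]
    congr 1
    funext u
    ring
  have e3 : ∫ u, g (u / L) = qq g L 0 := by
    rw [← bl_scale g hL]
    unfold bl
    simp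
  have e4 : ∫ x, qq g L x = g 0 := by
    have := bl_qq g hL 0
    unfold bl at this
    simp only [mul_zero, Real.cos_zero, mul_one, zero_div, neg_zero] at this
    rw [this]
    ring
  have e5 : ∫ u, g (u / L) * KK 1 u = ∫ x, tri 1 x * qq g L x := by
    rw [pars hf]
    simp_rw [bl_scale g hL]
  unfold pr
  rw [e1, e2, e3, e4, e5]
  ring

/-- far values of the scaled transform -/
lemma qq_far (g : 𝓢(ℝ, ℝ)) {A L : ℝ}
    (h : ∀ x : ℝ, |x| ^ 5 * |qq g L x| ≤ A / L ^ 4) {x : ℝ} (hx : 1 / 4 < |x|) :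
    |qq g L x| ≤ 17 * 64 * A / L ^ 4 * (1 / (1 + x ^ 2)) := by
  have h1 := h x
  have hx0 : 0 < |x| := by linarith
  have h2 : |qq g L x| ≤ A / L ^ 4 / |x| ^ 5 := by
    rw [le_div_iff₀ (by positivity)]
    linarith
  have hA : 0 ≤ A / L ^ 4 := le_trans (by positivity) h1
  refine h2.trans ?_
  have h3 : 17 * 64 * A / L ^ 4 * (1 / (1 + x ^ 2)) = A / L ^ 4 * (17 * 64 / (1 + x ^ 2)) := by
    ring
  rw [h3, div_eq_mul_one_div]
  apply mul_le_mul_of_nonneg_left _ hA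
  rw [div_le_div_iff₀ (by positivity) (by positivity), ← sq_abs x]
  set t := |x| with ht
  have h4 : 1 ≤ 16 * t ^ 2 := by nlinarith
  have h5 : 1 ≤ 64 * t ^ 3 := by
    have : (1 / 4 : ℝ) ^ 3 ≤ t ^ 3 := pow_le_pow_left₀ (by norm_num) hx.le 3
    norm_num at this
    linarith
  calc 1 * (1 + t ^ 2) ≤ 17 * t ^ 2 := by linarith
    _ ≤ 17 * t ^ 2 * (64 * t ^ 3) := le_mul_of_one_le_right (by positivity) h5
    _ = 17 * 64 * t ^ 5 := by ring

lemma cau_int : Integrable (fun x : ℝ => 1 / (1 + x ^ 2)) := by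
  simpa [one_div] using integrable_inv_one_add_sq

lemma cau_val : ∫ x : ℝ, 1 / (1 + x ^ 2) = Real.pi := by
  simp only [one_div]
  exact integral_univ_inv_one_add_sq

/-- the predicted value and the value for the cut-off transform -/
lemma mo_pr (g : 𝓢(ℝ, ℝ)) {A L : ℝ} (hL : 0 < L)
    (h : ∀ x : ℝ, |x| ^ 5 * |qq g L x| ≤ A / L ^ 4) :
    |mo (fun x => qq g L x * ch x) - pr g L| ≤ 17 * 64 * A / L ^ 4 * Real.pi := by
  have hq := qq_int g hL
  have hqc := (qq_smooth g L).continuous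
  have hTi : Integrable (fun x => (1 - tri 1 x) * qq g L x) := by
    have hc : Continuous fun x => 1 - tri 1 x := continuous_const.sub (tri_cont 1)
    have := hq.mul_bdd (c := 1) hc.aestronglyMeasurable (Eventually.of_forall fun u => by
      rw [Real.norm_eq_abs, abs_of_nonneg (by linarith [tri_le_one u])]
      linarith [tri_nonneg 1 u])
    refine this.congr (Eventually.of_forall fun x => ?_)
    show qq g L x * (1 - tri 1 x) = (1 - tri 1 x) * qq g L x
    ring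
  have hci : Integrable (fun x => |x| * (qq g L x * ch x)) := by
    apply Continuous.integrable_of_hasCompactSupport
    · have := ch_smooth.continuous
      fun_prop
    · apply HasCompactSupport.mul_left
      apply out_supp (δ := 1 / 2)
      intro x hx
      rw [ch_zero hx.le, mul_zero]
  rw [pr_eq g hL]
  unfold mo
  have e0 : qq g L 0 * ch 0 = qq g L 0 := by rw [ch_one (by simp), mul_one]
  show |(qq g L 0 * ch 0 + ∫ x, |x| * (qq g L x * ch x)) -
    (qq g L 0 + ∫ x, (1 - tri 1 x) * qq g L x)| ≤ _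
  rw [e0]
  have e1 : qq g L 0 + (∫ x, |x| * (qq g L x * ch x)) -
      (qq g L 0 + ∫ x, (1 - tri 1 x) * qq g L x) =
      ∫ x, (|x| * (qq g L x * ch x) - (1 - tri 1 x) * qq g L x) := by
    rw [integral_sub hci hTi]
    ring
  rw [e1, ← cau_val, ← integral_const_mul]
  refine (abs_integral_le_integral_abs).trans ?_
  apply integral_mono (hci.sub hTi).abs (cau_int.const_mul _)
  intro x
  show |(|x| * (qq g L x * ch x) - (1 - tri 1 x) * qq g L x)| ≤
    17 * 64 * A / L ^ 4 * (1 / (1 + x ^ 2))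
  have hA : 0 ≤ A / L ^ 4 := le_trans (by positivity) (h 0)
  rcases le_or_gt |x| (1 / 4) with hx | hx
  · rw [ch_one hx, tri_in one_pos (by linarith), div_one]
    have : |x| * (qq g L x * 1) - (1 - (1 - |x|)) * qq g L x = 0 := by ring
    rw [this, abs_zero]
    have : 17 * 64 * A / L ^ 4 = 17 * 64 * (A / L ^ 4) := by ring
    rw [this]
    positivity
  · have h2 := qq_far g h hx
    have e2 : |x| * (qq g L x * ch x) - (1 - tri 1 x) * qq g L x =
        (|x| * ch x - (1 - tri 1 x)) * qq g L x := by ring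
    rw [e2, abs_mul]
    have h3 : |(|x| * ch x - (1 - tri 1 x))| ≤ 1 := by
      have a1 := tri_nonneg 1 x
      have a2 := tri_le_one x
      have a3 := ch_nonneg x
      have a4 : |x| * ch x ≤ 1 := by
        rcases le_or_gt (1 / 2) |x| with h5 | h5
        · rw [ch_zero h5, mul_zero]; norm_num
        · have := ch_le_one x
          nlinarith
      have a5 : 0 ≤ |x| * ch x := by positivity
      rw [abs_le]
      constructor <;> linarith
    calc |(|x| * ch x - (1 - tri 1 x))| * |qq g L x| ≤ 1 * |qq g L x| :=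
          mul_le_mul_of_nonneg_right h3 (abs_nonneg _)
      _ ≤ _ := by rw [one_mul]; exact h2

/-- the sum with the cut-off transform -/
lemma smooth_split (g : 𝓢(ℝ, ℝ)) {A L : ℝ} (hL : 0 < L)
    (h : ∀ x : ℝ, |x| ^ 5 * |qq g L x| ≤ A / L ^ 4) (I : Finset ℕ) (y : ℕ → ℝ) :
    |(∑ n ∈ I, ∑ m ∈ I, g ((y n - y m) / L)) -
      ∑ n ∈ I, ∑ m ∈ I, bl (fun x => qq g L x * ch x) (y n - y m)| ≤
      17 * 64 * A / L ^ 4 *
        (Real.pi * ∑ n ∈ I, ∑ m ∈ I, Real.exp (-(2 * Real.pi) * |y n - y m|)) := by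
  have hq := qq_int g hL
  have hA : 0 ≤ A / L ^ 4 := le_trans (by positivity) (h 0)
  have hr : Integrable (fun x => qq g L x * ch x) := by
    refine hq.mul_bdd (c := 1) ch_smooth.continuous.aestronglyMeasurable
      (Eventually.of_forall fun u => ?_)
    rw [Real.norm_eq_abs, abs_of_nonneg (ch_nonneg u)]
    exact ch_le_one u
  obtain ⟨i1, e1⟩ := int_TS hq I y
  obtain ⟨i2, e2⟩ := int_TS hr I y
  obtain ⟨i3, e3⟩ := cauchy_sum I y
  have e4 : ∑ n ∈ I, ∑ m ∈ I, bl (qq g L) (y n - y m) = ∑ n ∈ I, ∑ m ∈ I, g ((y n - y m) / L) := by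
    have e5 : ∑ n ∈ I, ∑ m ∈ I, g (-((y n - y m) / L)) = ∑ n ∈ I, ∑ m ∈ I, g ((y n - y m) / L) := by
      rw [Finset.sum_comm]
      refine Finset.sum_congr rfl fun n _ => Finset.sum_congr rfl fun m _ => ?_
      congr 1
      ring
    simp_rw [bl_qq g hL]
    simp_rw [← Finset.sum_div, Finset.sum_add_distrib, e5]
    ring
  rw [← e4, ← e1, ← e2, ← integral_sub i1 i2]
  refine (abs_integral_le_integral_abs).trans ?_
  have h1 : ∫ α, |qq g L α * ‖TS I y α‖ ^ 2 - qq g L α * ch α * ‖TS I y α‖ ^ 2| ≤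
      ∫ α, 17 * 64 * A / L ^ 4 * (1 / (1 + α ^ 2) * ‖TS I y α‖ ^ 2) := by
    apply integral_mono (i1.sub i2).abs (i3.const_mul _)
    intro α
    show |qq g L α * ‖TS I y α‖ ^ 2 - qq g L α * ch α * ‖TS I y α‖ ^ 2| ≤
      17 * 64 * A / L ^ 4 * (1 / (1 + α ^ 2) * ‖TS I y α‖ ^ 2)
    have e5 : qq g L α * ‖TS I y α‖ ^ 2 - qq g L α * ch α * ‖TS I y α‖ ^ 2 =
        (qq g L α * (1 - ch α)) * ‖TS I y α‖ ^ 2 := by ring
    rw [e5, abs_mul, abs_of_nonneg (by positivity : 0 ≤ ‖TS I y α‖ ^ 2), ← mul_assoc]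
    apply mul_le_mul_of_nonneg_right _ (by positivity)
    rcases le_or_gt |α| (1 / 4) with hx | hx
    · rw [ch_one hx, sub_self, mul_zero, abs_zero]
      have : 17 * 64 * A / L ^ 4 = 17 * 64 * (A / L ^ 4) := by ring
      rw [this]
      positivity
    · rw [abs_mul, abs_of_nonneg (by linarith [ch_le_one α] : 0 ≤ 1 - ch α)]
      calc |qq g L α| * (1 - ch α) ≤ |qq g L α| * 1 :=
            mul_le_mul_of_nonneg_left (by linarith [ch_nonneg α]) (abs_nonneg _)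
        _ ≤ _ := by rw [mul_one]; exact qq_far g h hx
  rw [integral_const_mul] at h1
  refine h1.trans ?_
  apply mul_le_mul_of_nonneg_left e3
  have : 17 * 64 * A / L ^ 4 = 17 * 64 * (A / L ^ 4) := by ring
  rw [this]
  positivity

/-- the blocks -/
lemma BlkE_qq : ∃ C : ℝ, 0 < C ∧ ∀ (g : 𝓢(ℝ, ℝ)) (A L : ℝ), 1 ≤ L → (∀ x : ℝ,
    |qq g L x| ≤ A * L ∧ |x| ^ 5 * |qq g L x| ≤ A / L ^ 4) →
    BlkE (fun x => qq g L x * ch x) (C * A / L ^ 2) := by
  obtain ⟨C, hC, h⟩ := dyadic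
  refine ⟨C * (8 ^ 5 * 4 + 1), by positivity, fun g A L hL hq => ?_⟩
  have hL0 : 0 < L := by linarith
  have hA : 0 ≤ A := by
    have h1 := (abs_nonneg _).trans (hq 0).1
    by_contra hc
    push Not at hc
    nlinarith
  obtain ⟨N, hN1, hN2⟩ := exists_nat_pow_near hL (one_lt_two (α := ℝ))
  set K := N + 1 with hK
  have hK1 : L ≤ 2 ^ K := hN2.le
  have hK2 : (2 : ℝ) ^ K ≤ 2 * L := by rw [hK, pow_succ]; linarith
  have h1 := h (qq g L) (qq_smooth g L) (A * L) (fun k => A / L ^ 4 * (8 ^ 5 * 32 ^ k))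
    (fun x => (hq x).1) (fun k x hx => by
      have h2 := (hq x).2
      have hp : (0 : ℝ) < 1 / 8 * (1 / 2) ^ k := by positivity
      have h3 : (1 / 8 * (1 / 2 : ℝ) ^ k) ^ 5 ≤ |x| ^ 5 := pow_le_pow_left₀ hp.le hx 5
      have h4 : (1 / 8 * (1 / 2 : ℝ) ^ k) ^ 5 * |qq g L x| ≤ A / L ^ 4 :=
        (mul_le_mul_of_nonneg_right h3 (abs_nonneg _)).trans h2
      have h5 : (1 / 8 * (1 / 2 : ℝ) ^ k) ^ 5 * (8 ^ 5 * 32 ^ k) = 1 := by
        rw [mul_pow, ← pow_mul, mul_comm k 5, pow_mul]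
        have : ((1 / 2 : ℝ) ^ 5) ^ k * 32 ^ k = 1 := by
          rw [← mul_pow]; norm_num
        calc (1 / 8 : ℝ) ^ 5 * ((1 / 2) ^ 5) ^ k * (8 ^ 5 * 32 ^ k) =
            ((1 / 8 : ℝ) ^ 5 * 8 ^ 5) * (((1 / 2 : ℝ) ^ 5) ^ k * 32 ^ k) := by ring
          _ = 1 := by rw [this]; norm_num
      calc |qq g L x| = ((1 / 8 * (1 / 2 : ℝ) ^ k) ^ 5 * (8 ^ 5 * 32 ^ k)) * |qq g L x| := by
            rw [h5, one_mul]
        _ = ((1 / 8 * (1 / 2 : ℝ) ^ k) ^ 5 * |qq g L x|) * (8 ^ 5 * 32 ^ k) := by ring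
        _ ≤ A / L ^ 4 * (8 ^ 5 * 32 ^ k) := mul_le_mul_of_nonneg_right h4 (by positivity)) K
  have hgeo : ∑ k ∈ Finset.range K, (4 : ℝ) ^ k ≤ 4 ^ K := by
    have := geom_sum_mul (4 : ℝ) K
    have h0 : (0 : ℝ) ≤ ∑ k ∈ Finset.range K, (4 : ℝ) ^ k := by positivity
    linarith
  have h4K : (4 : ℝ) ^ K ≤ 4 * L ^ 2 := by
    have : (4 : ℝ) ^ K = (2 ^ K) ^ 2 := by
      rw [← pow_mul, mul_comm, pow_mul]; norm_num
    rw [this]
    calc ((2 : ℝ) ^ K) ^ 2 ≤ (2 * L) ^ 2 := pow_le_pow_left₀ (by positivity) hK2 2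
      _ = 4 * L ^ 2 := by ring
  have h8K : ((1 : ℝ) / 8) ^ K ≤ 1 / L ^ 3 := by
    have : ((1 : ℝ) / 8) ^ K = 1 / (2 ^ K) ^ 3 := by
      rw [one_div_pow, ← pow_mul, mul_comm, pow_mul]; norm_num
    rw [this]
    apply one_div_le_one_div_of_le (by positivity)
    exact pow_le_pow_left₀ hL0.le hK1 3
  have hE : C * (∑ k ∈ Finset.range K, A / L ^ 4 * (8 ^ 5 * 32 ^ k) * (1 / 8) ^ k +
      A * L * (1 / 8) ^ K) ≤ C * (8 ^ 5 * 4 + 1) * A / L ^ 2 := by
    have e1 : ∑ k ∈ Finset.range K, A / L ^ 4 * (8 ^ 5 * 32 ^ k) * (1 / 8 : ℝ) ^ k =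
        A / L ^ 4 * 8 ^ 5 * ∑ k ∈ Finset.range K, (4 : ℝ) ^ k := by
      rw [Finset.mul_sum]
      refine Finset.sum_congr rfl fun k _ => ?_
      have : (32 : ℝ) ^ k * (1 / 8) ^ k = 4 ^ k := by rw [← mul_pow]; norm_num
      calc A / L ^ 4 * (8 ^ 5 * 32 ^ k) * (1 / 8 : ℝ) ^ k =
          A / L ^ 4 * 8 ^ 5 * (32 ^ k * (1 / 8) ^ k) := by ring
        _ = _ := by rw [this]
    rw [e1]
    have e2 : A / L ^ 4 * 8 ^ 5 * ∑ k ∈ Finset.range K, (4 : ℝ) ^ k ≤
        A / L ^ 4 * 8 ^ 5 * (4 * L ^ 2) :=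
      mul_le_mul_of_nonneg_left (hgeo.trans h4K) (by positivity)
    have e3 : A * L * (1 / 8) ^ K ≤ A * L * (1 / L ^ 3) :=
      mul_le_mul_of_nonneg_left h8K (by positivity)
    have e4 : A / L ^ 4 * 8 ^ 5 * (4 * L ^ 2) + A * L * (1 / L ^ 3) =
        (8 ^ 5 * 4 + 1) * A / L ^ 2 := by
      field_simp
    calc C * (A / L ^ 4 * 8 ^ 5 * ∑ k ∈ Finset.range K, (4 : ℝ) ^ k + A * L * (1 / 8) ^ K) ≤
        C * (A / L ^ 4 * 8 ^ 5 * (4 * L ^ 2) + A * L * (1 / L ^ 3)) :=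
          mul_le_mul_of_nonneg_left (add_le_add e2 e3) hC.le
      _ = C * (8 ^ 5 * 4 + 1) * A / L ^ 2 := by rw [e4]; ring
  intro ε hε
  filter_upwards [h1 ε hε] with V hV
  exact hV.trans (by linarith)

/-- **smooth averages of the pair count** -/
theorem smooth_lim (g : 𝓢(ℝ, ℝ)) : ∃ C : ℝ, 0 < C ∧ ∀ L : ℝ, 1 ≤ L → ∀ᶠ T : ℝ in atTop,
    |(∑ n ∈ Finset.Ioc 0 (NZ T), ∑ m ∈ Finset.Ioc 0 (NZ T), g ((yy T n - yy T m) / L)) / Xf T -
      pr g L| ≤ C / L ^ 2 := by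
  obtain ⟨A, hA, hq⟩ := qq_bound g
  obtain ⟨C0, hC0, hB⟩ := BlkE_qq
  obtain ⟨C1, T0, hC1, hT0, hexp⟩ := exp_sum
  have hpi := Real.pi_pos
  refine ⟨C0 * A + 1 + 17 * 64 * A * Real.pi + 17 * 64 * A * (Real.pi * C1), by positivity,
    fun L hL => ?_⟩
  have hL0 : 0 < L := by linarith
  have hr : OT (fun x => qq g L x * ch x) (1 / 2) := by
    have hsm : ContDiff ℝ ∞ (fun x => qq g L x * ch x) := (qq_smooth g L).mul ch_smooth
    have hs : ∀ x, (1 : ℝ) / 2 < |x| → qq g L x * ch x = 0 := fun x hx => by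
      rw [ch_zero hx.le, mul_zero]
    have hc := out_supp hs
    refine ⟨?_, hs, (bl_smooth hsm hc).1, (bl_smooth hsm hc).2⟩
    obtain ⟨K, hK⟩ := (contDiff_infty.1 hsm 1).lipschitzWith_of_hasCompactSupport hc (by norm_num)
    refine ⟨K, fun x y => ?_⟩
    have := hK.dist_le_mul x y
    rwa [Real.dist_eq, Real.dist_eq] at this
  filter_upwards [pair_up hr (by positivity) (hB g A L hL (hq L hL)) (1 / L ^ 2) (by positivity),
    eventually_ge_atTop T0] with T h1 hT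
  have hX : 0 < Xf T := Xf_pos (by linarith)
  rw [Q2_conv] at h1
  have h2 := smooth_split g hL0 (fun x => (hq L hL x).2) (Finset.Ioc 0 (NZ T)) (yy T)
  have h3 := mo_pr g hL0 (fun x => (hq L hL x).2)
  have h4 := hexp T hT
  set S := ∑ n ∈ Finset.Ioc 0 (NZ T), ∑ m ∈ Finset.Ioc 0 (NZ T),
    g ((yy T n - yy T m) / L) with hS
  set R := ∑ n ∈ Finset.Ioc 0 (NZ T), ∑ m ∈ Finset.Ioc 0 (NZ T),
    bl (fun x => qq g L x * ch x) (yy T n - yy T m) with hR
  set E := ∑ n ∈ Finset.Ioc 0 (NZ T), ∑ m ∈ Finset.Ioc 0 (NZ T),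
      Real.exp (-(2 * Real.pi) * |yy T n - yy T m|) with hEdef
  set M := mo (fun x => qq g L x * ch x) with hM
  have h5 : |S / Xf T - R / Xf T| ≤ 17 * 64 * A / L ^ 4 * (Real.pi * C1) := by
    rw [← sub_div, abs_div, abs_of_pos hX, div_le_iff₀ hX]
    refine h2.trans ?_
    calc 17 * 64 * A / L ^ 4 * (Real.pi * E) ≤ 17 * 64 * A / L ^ 4 * (Real.pi * (C1 * Xf T)) := by
          gcongr
      _ = 17 * 64 * A / L ^ 4 * (Real.pi * C1) * Xf T := by ring
  have hL42 : ∀ B : ℝ, 0 ≤ B → B / L ^ 4 ≤ B / L ^ 2 := by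
    intro B hB
    apply div_le_div_of_nonneg_left hB (by positivity)
    exact pow_le_pow_right₀ hL (by norm_num)
  have h6 : 17 * 64 * A / L ^ 4 * (Real.pi * C1) ≤ 17 * 64 * A * (Real.pi * C1) / L ^ 2 := by
    have := hL42 (17 * 64 * A * (Real.pi * C1)) (by positivity)
    refine le_trans (le_of_eq ?_) this
    ring
  have h7 : 17 * 64 * A / L ^ 4 * Real.pi ≤ 17 * 64 * A * Real.pi / L ^ 2 := by
    have := hL42 (17 * 64 * A * Real.pi) (by positivity)
    refine le_trans (le_of_eq ?_) this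
    ring
  have e : S / Xf T - pr g L = (S / Xf T - R / Xf T) + ((R / Xf T - M) + (M - pr g L)) := by ring
  rw [e]
  refine (abs_add_le _ _).trans ?_
  have h8 := abs_add_le (R / Xf T - M) (M - pr g L)
  have e2 : (C0 * A + 1 + 17 * 64 * A * Real.pi + 17 * 64 * A * (Real.pi * C1)) / L ^ 2 =
      C0 * A / L ^ 2 + 1 / L ^ 2 + 17 * 64 * A * Real.pi / L ^ 2 +
        17 * 64 * A * (Real.pi * C1) / L ^ 2 := by ring
  rw [e2]
  linarith

end Pool.Agent.Q276.NV
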