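import Pool.Agent.Q276.NV.E3

/-! Pointwise bounds for the pair count. -/

set_option autoImplicit false

open Filter Topology Set MeasureTheory FourierTransform
open scoped ContDiff SchwartzMap

namespace Pool.Agent.Q276.NV

open H177.Lat (KK KK_nonneg KK_le)
open SG (ord NZ)
open Pool.Agent.Y744 (Zt mz mem_Zt mz_nonneg Xf Xf_pos dd PC PC_mono Aa Aa_mono gp gp_nonneg gp_le)
open H177.Lat (yy)
open Q241.OP (Nstar ZZ P P_eq low_zero Nstar_eq Dn_eq Dn)

/-- the number of differences at most `a` -/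
theorem Aa_lim : ∃ C : ℝ, 0 ≤ C ∧ ∀ a : ℝ, 0 ≤ a → ∀ᶠ T : ℝ in atTop, |Aa T a - 2 * a| ≤ C := by
  obtain ⟨C, hC, h⟩ := TT_lim
  have hup : ∀ a : ℝ, 1 ≤ a → ∀ᶠ T : ℝ in atTop, Aa T a - 2 * a ≤ 2 * C + 2 := by
    intro a ha
    filter_upwards [h a ha, h (a + 1) (by linarith), eventually_gt_atTop (1 : ℝ)] with T h1 h2 hT
    obtain ⟨i1, e1⟩ := Aa_int (T := T) (L := a) (by linarith)
    obtain ⟨i2, e2⟩ := Aa_int (T := T) (L := a + 1) (by linarith)
    have i3 : IntervalIntegrable (Aa T) volume a (a + 1) := i1.symm.trans i2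
    have h3 : Aa T a ≤ ∫ y in a..(a + 1), Aa T y := by
      have h4 : ∫ y in a..(a + 1), Aa T a ≤ ∫ y in a..(a + 1), Aa T y :=
        intervalIntegral.integral_mono_on (by linarith) (by simp) i3
          fun y hy => Aa_mono hT hy.1
      rw [intervalIntegral.integral_const, smul_eq_mul] at h4
      linarith
    have h4 := intervalIntegral.integral_interval_sub_left i2 i1
    rw [← h4, e1, e2] at h3
    have h5 : Real.log (a + 1) ≤ Real.log a + 1 := by
      have : Real.log (a + 1) ≤ Real.log (a * 2) := Real.log_le_log (by linarith) (by linarith)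
      rw [Real.log_mul (by linarith) (by norm_num)] at this
      have := Real.log_le_sub_one_of_pos (show (0 : ℝ) < 2 by norm_num)
      linarith
    have hpi := Real.pi_gt_three
    have h6 : 1 / Real.pi ^ 2 * (Real.log (a + 1) - Real.log a) ≤ 1 := by
      have h7 : 0 ≤ Real.log (a + 1) - Real.log a :=
        sub_nonneg.2 (Real.log_le_log (by linarith) (by linarith))
      have h8 : 1 / Real.pi ^ 2 ≤ 1 := by
        rw [div_le_one (by positivity)]
        nlinarith
      have h9 : 0 ≤ 1 / Real.pi ^ 2 := by positivity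
      nlinarith
    rw [abs_le] at h1 h2
    nlinarith [h1.1, h1.2, h2.1, h2.2]
  have hlow : ∀ a : ℝ, 2 ≤ a → ∀ᶠ T : ℝ in atTop, -(2 * C + 2) ≤ Aa T a - 2 * a := by
    intro a ha
    filter_upwards [h a (by linarith), h (a - 1) (by linarith), eventually_gt_atTop (1 : ℝ)]
      with T h1 h2 hT
    obtain ⟨i1, e1⟩ := Aa_int (T := T) (L := a) (by linarith)
    obtain ⟨i2, e2⟩ := Aa_int (T := T) (L := a - 1) (by linarith)
    have i3 : IntervalIntegrable (Aa T) volume (a - 1) a := i2.symm.trans i1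
    have h3 : ∫ y in (a - 1)..a, Aa T y ≤ Aa T a := by
      have h4 : ∫ y in (a - 1)..a, Aa T y ≤ ∫ y in (a - 1)..a, Aa T a :=
        intervalIntegral.integral_mono_on (by linarith) i3 (by simp)
          fun y hy => Aa_mono hT hy.2
      rw [intervalIntegral.integral_const, smul_eq_mul] at h4
      linarith
    have h4 := intervalIntegral.integral_interval_sub_left i1 i2
    rw [← h4, e1, e2] at h3
    have h5 : 0 ≤ 1 / Real.pi ^ 2 * (Real.log a - Real.log (a - 1)) := by
      have h7 : 0 ≤ Real.log a - Real.log (a - 1) :=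
        sub_nonneg.2 (Real.log_le_log (by linarith) (by linarith))
      have := Real.pi_pos
      positivity
    rw [abs_le] at h1 h2
    nlinarith [h1.1, h1.2, h2.1, h2.2]
  refine ⟨2 * C + 4, by positivity, fun a ha => ?_⟩
  rcases le_or_gt 2 a with h2 | h2
  · filter_upwards [hup a (by linarith), hlow a h2] with T g1 g2
    rw [abs_le]
    constructor <;> linarith
  · filter_upwards [hup (max a 1) (le_max_right _ _), eventually_gt_atTop (1 : ℝ)] with T g1 hT
    have g2 := Aa_mono hT (le_max_left a 1)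
    have g3 : 0 ≤ Aa T a := by
      unfold Aa
      exact mul_nonneg (inv_nonneg.2 (Xf_pos hT).le) (Pool.Agent.Y744.PC_nonneg _ _)
    rw [abs_le]
    constructor
    · linarith
    · rcases le_total a 1 with h3 | h3
      · rw [max_eq_right h3] at g1 g2
        linarith
      · rw [max_eq_left h3] at g1 g2
        linarith

lemma gp_lin {a : ℝ} (ha : 0 < a) : |gp a - a| ≤ 2 := by
  have h1 := gp_le ha.le
  rw [abs_of_nonpos (by linarith)]
  have h2 : gp a = a - ∫ x in (0 : ℝ)..a, KK 1 x := by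
    unfold gp
    have hK := KK1_cont
    have e : ∀ x ∈ Set.uIcc (0 : ℝ) a, Pool.Agent.Y744.gd x = 1 - KK 1 x := fun x _ => gd_eq x
    rw [intervalIntegral.integral_congr e, intervalIntegral.integral_sub (by simp)
      (hK.intervalIntegrable _ _), intervalIntegral.integral_const, smul_eq_mul]
    ring
  rw [h2]
  rcases le_total 1 a with h3 | h3
  · have h4 := (abs_le.1 (half_KK ha)).2
    have h5 : 1 / a ≤ 1 := by rw [div_le_one ha]; exact h3
    linarith
  · have h4 : ∫ x in (0 : ℝ)..a, KK 1 x ≤ ∫ x in (0 : ℝ)..a, (1 : ℝ) :=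
      intervalIntegral.integral_mono_on ha.le (KK1_cont.intervalIntegrable _ _) (by simp)
        fun x _ => KK_le one_pos x
    rw [intervalIntegral.integral_const, smul_eq_mul] at h4
    linarith

/-- **the pair count at every distance, up to a bounded error** -/
theorem Nstar_point : ∃ C : ℝ, 0 ≤ C ∧ ∀ a : ℝ, 0 < a → ∀ᶠ T : ℝ in atTop,
    |(Nstar T a : ℝ) / (T * Real.log T) - P a| ≤ C := by
  obtain ⟨C, hC, h⟩ := Aa_lim
  have hpi := Real.pi_pos
  refine ⟨1 / (4 * Real.pi) * (2 * C) + 1 / (2 * Real.pi) * 2, by positivity, fun a ha => ?_⟩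
  obtain ⟨m, hm0, hm⟩ := low_zero
  have h1 : Tendsto (fun T : ℝ => 2 * Real.pi * a / Real.log T) atTop (𝓝 0) :=
    Tendsto.div_atTop tendsto_const_nhds Real.tendsto_log_atTop
  filter_upwards [(tendsto_order.1 h1).2 m hm0, eventually_gt_atTop (1 : ℝ), h a ha.le,
    h 0 le_rfl] with T h2 hT h3 h4
  have hlog : 0 < Real.log T := Real.log_pos hT
  have hX : 0 < Xf T := Xf_pos hT
  have e1 : (Nstar T a : ℝ) / (T * Real.log T) - P a =
      1 / (4 * Real.pi) * ((Aa T a - 2 * a) - (Aa T 0 - 2 * 0)) -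
        1 / (2 * Real.pi) * (gp a - a) := by
    rw [Nstar_eq hm hT h2, P_eq]
    have h5 := Dn_eq (T := T) ha.le
    unfold Dn at h5
    have h6 : (Aa T a - 2 * a) - (Aa T 0 - 2 * 0) = (Aa T a - Aa T 0) - 2 * a := by ring
    rw [h6, h5]
    unfold Xf
    field_simp
    ring
  rw [e1]
  refine (abs_sub _ _).trans ?_
  rw [abs_mul, abs_mul, abs_of_pos (by positivity : 0 < 1 / (4 * Real.pi)),
    abs_of_pos (by positivity : 0 < 1 / (2 * Real.pi))]
  have h7 := gp_lin ha
  have h8 := abs_sub (Aa T a - 2 * a) (Aa T 0 - 2 * 0)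
  gcongr
  linarith

/-- the diagonal is at least the number of zeros -/
lemma Neq_ge : ∀ T : ℝ, 1 < T → (NZ T : ℝ) ≤ Neq T := by
  intro T hT
  rw [Neq_eq hT, PC_conv]
  have h1 : (NZ T : ℝ) = ∑ n ∈ Finset.Ioc 0 (NZ T), (1 : ℝ) := by simp
  rw [h1]
  refine Finset.sum_le_sum fun n hn => ?_
  have h2 : (1 : ℝ) = {x : ℝ | |x| ≤ 0}.indicator (fun _ => (1 : ℝ)) (yy T n - yy T n) := by
    rw [Set.indicator_of_mem]
    show |yy T n - yy T n| ≤ 0
    rw [sub_self, abs_zero]
  refine h2.le.trans ?_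
  exact Finset.single_le_sum (f := fun m => {x : ℝ | |x| ≤ 0}.indicator (fun _ => (1 : ℝ))
    (yy T n - yy T m)) (fun m _ => Set.indicator_nonneg (fun _ _ => zero_le_one) _) hn

/-- the integrated pair count has a one-sided bound -/
theorem Nstar_upper : ∃ C : ℝ, 0 ≤ C ∧ ∀ L : ℝ, 1 ≤ L → ∀ᶠ T : ℝ in atTop,
    (∫ a in (0 : ℝ)..L, ((Nstar T a : ℝ) / (T * Real.log T) - P a)) ≤ C := by
  obtain ⟨C, hC, h⟩ := Nstar_lim
  refine ⟨C + 1, by positivity, fun L hL => ?_⟩
  have hpi := Real.pi_pos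
  have h1 := (tendsto_order.1 NZ_lim).1 (1 - 4 * Real.pi / L)
    (by have : 0 < 4 * Real.pi / L := by positivity
        linarith)
  filter_upwards [h L hL, h1, eventually_gt_atTop (1 : ℝ)] with T g1 g2 hT
  have hX : 0 < Xf T := Xf_pos hT
  have h2 := Neq_ge T hT
  have h3 : (NZ T : ℝ) / Xf T ≤ (Neq T : ℝ) / (T * Real.log T / (2 * Real.pi)) := by
    show (NZ T : ℝ) / Xf T ≤ (Neq T : ℝ) / Xf T
    exact div_le_div_of_nonneg_right h2 hX.le
  have h4 : -(4 * Real.pi / L) ≤ (Neq T : ℝ) / (T * Real.log T / (2 * Real.pi)) - 1 := by linarith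
  have h5 : L / (4 * Real.pi) * -(4 * Real.pi / L) ≤
      L / (4 * Real.pi) * ((Neq T : ℝ) / (T * Real.log T / (2 * Real.pi)) - 1) :=
    mul_le_mul_of_nonneg_left h4 (by positivity)
  have h6 : L / (4 * Real.pi) * -(4 * Real.pi / L) = -1 := by
    field_simp
  have h7 := (abs_le.1 g1).2
  linarith

end Pool.Agent.Q276.NV
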